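import Mathlib
import Pool.Agent.H7.UC.IfaceA
import Pool.Agent.H91.M7.ExtDisc

set_option autoImplicit false
open Set Filter Topology Metric
open scoped Real

/-!
# Small connected sets have small preimages (G1)
-/

namespace Pool.Agent.H69.UC

open Pool.Agent.H7.UC

lemma G1_open {η : ℝ} (hη : 0 < η) : ∃ δ : ℝ, 0 < δ ∧ ∀ (Dom : Set ℂ) (φ : ℂ → ℂ) (z : ℂ) (R : ℝ),
    DiscChart Dom φ → φ 0 = z → 0 < R → ball z R ⊆ Dom → ∀ S ⊆ ball (0:ℂ) 1, IsPreconnected S →
    (∀ a ∈ S, ∀ b ∈ S, dist (φ a) (φ b) ≤ δ * R) → ∀ a ∈ S, ∀ b ∈ S, dist a b ≤ η := by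
  refine ⟨min (η / 4) (min (1 / 8) (Real.exp (-(32 * π / η) ^ 2) / 4)), by positivity, ?_⟩
  set δ := min (η / 4) (min (1 / 8) (Real.exp (-(32 * π / η) ^ 2) / 4)) with hδ
  have hδ0 : 0 < δ := by positivity
  have hδ1 : δ ≤ η / 4 := min_le_left _ _
  have hδ2 : δ ≤ 1 / 8 := (min_le_right _ _).trans (min_le_left _ _)
  have hδ3 : δ ≤ Real.exp (-(32 * π / η) ^ 2) / 4 := (min_le_right _ _).trans (min_le_right _ _)
  intro Dom φ z R hφ h0 hR hball S hS hSc hsmall a ha b hb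
  set g := Function.invFunOn φ (ball (0:ℂ) 1) with hg
  have hinj : InjOn φ (ball 0 1) := hφ.inj.mono ball_subset_closedBall
  have hgφ : ∀ w ∈ ball (0:ℂ) 1, g (φ w) = w := fun w hw => hinj.leftInvOn_invFunOn hw
  have hgd : DifferentiableOn ℂ g Dom := by
    rw [← hφ.img]
    exact Pool.Agent.H83.Lo.differentiableOn_inv isOpen_ball hφ.diff hinj hgφ
  have hDo : IsOpen Dom := by
    rw [← hφ.img]
    exact Pool.Agent.H96.M7.open_of_injOn isOpen_ball (convex_ball _ _).isPreconnected hφ.diff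
      hinj _ Subset.rfl isOpen_ball
  have hgi : InjOn g Dom := by
    rw [← hφ.img]
    rintro _ ⟨w, hw, rfl⟩ _ ⟨w', hw', rfl⟩ h
    rw [hgφ w hw, hgφ w' hw'] at h
    rw [h]
  have hgim : g '' Dom = ball 0 1 := by
    rw [← hφ.img]
    ext w
    constructor
    · rintro ⟨_, ⟨w', hw', rfl⟩, rfl⟩
      rw [hgφ w' hw']
      exact hw'
    · intro hw
      exact ⟨φ w, ⟨w, hw, rfl⟩, hgφ w hw⟩
  have hzD : z ∈ Dom := hball (mem_ball_self hR)
  have hgz : g z = 0 := by rw [← h0]; exact hgφ 0 (mem_ball_self one_pos)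
  have hPD : φ '' S ⊆ Dom := by rw [← hφ.img]; exact image_mono hS
  have hPc : IsPreconnected (φ '' S) :=
    hSc.image φ (hφ.cont.mono (hS.trans ball_subset_closedBall))
  have hPb : φ '' S ⊆ closedBall (φ a) (δ * R) := by
    rintro _ ⟨w, hw, rfl⟩
    exact hsmall w hw a ha
  have hab := hsmall a ha b hb
  have e1 := hgφ a (hS ha)
  have e2 := hgφ b (hS hb)
  rcases le_or_gt (R / 4) (dist z (φ a)) with hfar | hnear
  · have h1 := Pool.Agent.H91.M7.ext_disc hDo hgd hgi hgim hzD hgz (r := δ * R) (R := R / 4)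
      (by positivity) (by nlinarith) hfar hPc hPD hPb ⟨a, ha, rfl⟩ ⟨b, hb, rfl⟩
    rw [e1, e2] at h1
    refine h1.trans ?_
    have h2 : (32 * π / η) ^ 2 ≤ Real.log (R / 4 / (δ * R)) := by
      have h3 : R / 4 / (δ * R) = 1 / (4 * δ) := by field_simp
      rw [h3, Real.le_log_iff_exp_le (by positivity)]
      rw [le_div_iff₀ (by positivity)]
      have h4 : Real.exp ((32 * π / η) ^ 2) * Real.exp (-(32 * π / η) ^ 2) = 1 := by
        rw [← Real.exp_add]; simp
      have h5 := Real.exp_pos ((32 * π / η) ^ 2)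
      nlinarith
    have h3 : 32 * π / η ≤ √(Real.log (R / 4 / (δ * R))) := Real.le_sqrt_of_sq_le h2
    have h4 : 0 < 32 * π / η := by positivity
    rw [div_le_iff₀ (h4.trans_le h3)]
    calc 32 * π = η * (32 * π / η) := by field_simp
      _ ≤ η * √(Real.log (R / 4 / (δ * R))) := by gcongr
  · have hb1 : ball (φ a) (R / 2) ⊆ Dom := by
      refine Subset.trans (fun w hw => ?_) hball
      rw [mem_ball] at hw ⊢
      have := dist_triangle w (φ a) z
      rw [dist_comm z] at hnear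
      linarith
    have h1 : MapsTo g (ball (φ a) (R / 2)) (closedBall (g (φ a)) 2) := by
      intro w hw
      have h2 : g w ∈ ball (0:ℂ) 1 := by rw [← hgim]; exact ⟨w, hb1 hw, rfl⟩
      have h3 := hS ha
      rw [mem_ball, dist_zero_right] at h2 h3
      rw [mem_closedBall, e1, dist_eq_norm]
      have := norm_sub_le (g w) a
      linarith
    have h2 := Complex.dist_le_div_mul_dist_of_mapsTo_ball (z := φ b) (hgd.mono hb1) h1 (by
      rw [mem_ball, dist_comm]
      refine hab.trans_lt ?_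
      nlinarith)
    rw [e1, e2] at h2
    rw [dist_comm]
    refine h2.trans ?_
    rw [dist_comm] at hab
    calc 2 / (R / 2) * dist (φ b) (φ a) ≤ 2 / (R / 2) * (δ * R) := by gcongr
      _ = 4 * δ := by field_simp; ring
      _ ≤ η := by linarith

/-- **G1.** Connected sets in the closed disc with small images are small. -/
theorem G1 {η : ℝ} (hη : 0 < η) : ∃ δ : ℝ, 0 < δ ∧ ∀ (Dom : Set ℂ) (φ : ℂ → ℂ) (z : ℂ) (R : ℝ),
    DiscChart Dom φ → φ 0 = z → 0 < R → ball z R ⊆ Dom → ∀ S ⊆ closedBall (0:ℂ) 1,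
    IsPreconnected S → (∀ a ∈ S, ∀ b ∈ S, dist (φ a) (φ b) ≤ δ * R) →
    ∀ a ∈ S, ∀ b ∈ S, dist a b ≤ η := by
  obtain ⟨δ, hδ, h⟩ := G1_open hη
  refine ⟨δ / 2, by positivity, ?_⟩
  intro Dom φ z R hφ h0 hR hball S hS hSc hsmall a ha b hb
  by_contra hcon
  rw [not_le] at hcon
  have huc := (isCompact_closedBall (0:ℂ) 1).uniformContinuousOn_of_continuous hφ.cont
  rw [Metric.uniformContinuousOn_iff] at huc
  obtain ⟨τ, hτ, huc⟩ := huc (δ * R / 4) (by positivity)
  -- the scaling factor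
  have hab : 0 < dist a b := hη.trans hcon
  obtain ⟨t, ht0, ht1, ht2, ht3⟩ : ∃ t : ℝ, 0 < t ∧ t < 1 ∧ 1 - τ < t ∧ η / dist a b < t := by
    have h1 : η / dist a b < 1 := (div_lt_one hab).2 hcon
    have h2 : max 0 (max (1 - τ) (η / dist a b)) < 1 := max_lt one_pos (max_lt (by linarith) h1)
    obtain ⟨t, ht, ht'⟩ := exists_between h2
    exact ⟨t, (le_max_left _ _).trans_lt ht, ht',
      ((le_max_left _ _).trans (le_max_right _ _)).trans_lt ht,
      ((le_max_right _ _).trans (le_max_right _ _)).trans_lt ht⟩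
  have hsc : ∀ w ∈ closedBall (0:ℂ) 1, ((t : ℂ) * w) ∈ ball (0:ℂ) 1 ∧
      dist (φ (t * w)) (φ w) < δ * R / 4 := by
    intro w hw
    rw [mem_closedBall, dist_zero_right] at hw
    have h1 : ‖(t : ℂ) * w‖ < 1 := by
      rw [norm_mul, Complex.norm_real, Real.norm_eq_abs, abs_of_pos ht0]
      nlinarith [norm_nonneg w]
    have h2 : (t : ℂ) * w ∈ ball (0:ℂ) 1 := by rwa [mem_ball, dist_zero_right]
    refine ⟨h2, huc _ (ball_subset_closedBall h2) w (by rwa [mem_closedBall, dist_zero_right]) ?_⟩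
    have e : (t : ℂ) * w - w = ((t - 1 : ℝ) : ℂ) * w := by push_cast; ring
    rw [dist_eq_norm, e, norm_mul, Complex.norm_real, Real.norm_eq_abs,
      abs_of_neg (by linarith)]
    nlinarith [norm_nonneg w]
  have key := h Dom φ z R hφ h0 hR hball ((fun w => (t : ℂ) * w) '' S) (by
      rintro _ ⟨w, hw, rfl⟩
      exact (hsc w (hS hw)).1)
    (hSc.image _ (by fun_prop)) (by
      rintro _ ⟨w, hw, rfl⟩ _ ⟨w', hw', rfl⟩
      have h1 := (hsc w (hS hw)).2
      have h2 := (hsc w' (hS hw')).2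
      have h3 := hsmall w hw w' hw'
      have h5 := dist_triangle4 (φ (t * w)) (φ w) (φ w') (φ (t * w'))
      rw [dist_comm (φ w') (φ (t * w'))] at h5
      linarith) _ ⟨a, ha, rfl⟩ _ ⟨b, hb, rfl⟩
  have e : dist ((t : ℂ) * a) (t * b) = t * dist a b := by
    rw [dist_eq_norm, ← mul_sub, norm_mul, Complex.norm_real, Real.norm_eq_abs, abs_of_pos ht0,
      dist_eq_norm]
  simp only at key
  rw [e] at key
  rw [div_lt_iff₀ hab] at ht3
  linarith

end Pool.Agent.H69.UC
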