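import Mathlib
import Pool.Agent.H69.UC.G1

set_option autoImplicit false
open Set Filter Topology Metric
open scoped Real

/-!
# Far connected sets have small preimages (G1'), upper estimate of the chart (G2)
-/

namespace Pool.Agent.H69.UC

open Pool.Agent.H7.UC

lemma chart_open {Dom : Set ℂ} {φ : ℂ → ℂ} (hφ : DiscChart Dom φ) : IsOpen Dom := by
  rw [← hφ.img]
  exact Pool.Agent.H96.M7.open_of_injOn isOpen_ball (convex_ball _ _).isPreconnected hφ.diff
    (hφ.inj.mono ball_subset_closedBall) _ Subset.rfl isOpen_ball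

/-- G1' on the open disc -/
lemma G1'_open {η : ℝ} (hη : 0 < η) : ∃ A : ℝ, 2 < A ∧ ∀ (Dom : Set ℂ) (φ : ℂ → ℂ) (z b : ℂ) (R : ℝ),
    DiscChart Dom φ → φ 0 = z → 0 < R → b ∉ Dom → dist z b = R → ∀ S ⊆ ball (0:ℂ) 1,
    IsPreconnected S → (∀ a ∈ S, A * R ≤ dist (φ a) z) → ∀ a ∈ S, ∀ a' ∈ S, dist a a' ≤ η := by
  set E := Real.exp ((32 * π / η) ^ 2) with hE
  have hE1 : 1 < E := by
    rw [hE]
    apply Real.one_lt_exp_iff.2
    positivity
  refine ⟨1 + E, by linarith, ?_⟩
  intro Dom φ z b R hφ h0 hR hb hzb S hS hSc hfar a ha a' ha'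
  have hR' : (R : ℂ) ≠ 0 := by exact_mod_cast hR.ne'
  set g := Function.invFunOn φ (ball (0:ℂ) 1) with hg
  have hinj : InjOn φ (ball 0 1) := hφ.inj.mono ball_subset_closedBall
  have hgφ : ∀ w ∈ ball (0:ℂ) 1, g (φ w) = w := fun w hw => hinj.leftInvOn_invFunOn hw
  have hφD : ∀ w ∈ ball (0:ℂ) 1, φ w ∈ Dom := fun w hw => by rw [← hφ.img]; exact ⟨w, hw, rfl⟩
  have hgd : DifferentiableOn ℂ g Dom := by
    rw [← hφ.img]
    exact Pool.Agent.H83.Lo.differentiableOn_inv isOpen_ball hφ.diff hinj hgφ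
  have hDo : IsOpen Dom := chart_open hφ
  have hgb : ∀ w ∈ Dom, g w ∈ ball (0:ℂ) 1 ∧ φ (g w) = w := by
    intro w hw
    rw [← hφ.img] at hw
    obtain ⟨v, hv, rfl⟩ := hw
    rw [hgφ v hv]
    exact ⟨hv, rfl⟩
  have hbD : ∀ w ∈ Dom, w - b ≠ 0 := by
    intro w hw h
    rw [sub_eq_zero] at h
    exact hb (h ▸ hw)
  -- the inverted domain
  set V : Set ℂ := {u | u ≠ 0 ∧ b + R / u ∈ Dom} with hV
  have hcont : ContinuousOn (fun u : ℂ => b + R / u) {0}ᶜ := by
    apply continuousOn_const.add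
    exact continuousOn_const.div continuousOn_id (fun u hu => hu)
  have hVo : IsOpen V := by
    have : V = {0}ᶜ ∩ (fun u : ℂ => b + R / u) ⁻¹' Dom := by
      ext u; simp [hV]
    rw [this]
    exact hcont.isOpen_inter_preimage isOpen_compl_singleton hDo
  set G : ℂ → ℂ := fun u => g (b + R / u) with hG
  have hGd : DifferentiableOn ℂ G V := by
    apply hgd.comp (t := Dom)
    · apply (differentiableOn_const b).add
      exact (differentiableOn_const _).div differentiableOn_id (fun u hu => hu.1)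
    · intro u hu; exact hu.2
  have hGi : InjOn G V := by
    intro u hu u' hu' h
    have h1 : b + R / u = b + R / u' := by
      rw [← (hgb _ hu.2).2, ← (hgb _ hu'.2).2]
      exact congrArg φ h
    have h2 : (R : ℂ) / u = R / u' := by linear_combination h1
    rw [div_eq_div_iff hu.1 hu'.1] at h2
    exact (mul_left_cancel₀ hR' h2).symm
  have hι : ∀ w ∈ Dom, (R : ℂ) / (w - b) ∈ V ∧ G (R / (w - b)) = g w := by
    intro w hw
    have h1 := hbD w hw
    have h2 : b + R / ((R : ℂ) / (w - b)) = w := by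
      field_simp
      ring
    refine ⟨⟨div_ne_zero hR' h1, ?_⟩, ?_⟩
    · rw [h2]; exact hw
    · rw [hG]
      simp only
      rw [h2]
  have hGim : G '' V = ball 0 1 := by
    ext w
    constructor
    · rintro ⟨u, hu, rfl⟩
      exact (hgb _ hu.2).1
    · intro hw
      have h1 := hι (φ w) (hφD w hw)
      exact ⟨_, h1.1, h1.2.trans (hgφ w hw)⟩
  have hzD : z ∈ Dom := h0 ▸ hφD 0 (mem_ball_self one_pos)
  have hz := hι z hzD
  have hGz : G (R / (z - b)) = 0 := by
    rw [hz.2, ← h0]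
    exact hgφ 0 (mem_ball_self one_pos)
  have hnz : dist ((R : ℂ) / (z - b)) 0 = 1 := by
    rw [dist_zero_right, norm_div, ← dist_eq_norm, hzb, Complex.norm_real, Real.norm_eq_abs,
      abs_of_pos hR, div_self hR.ne']
  have hPsub : (fun w => (R : ℂ) / (φ w - b)) '' S ⊆ V := by
    rintro _ ⟨w, hw, rfl⟩
    exact (hι _ (hφD w (hS hw))).1
  have hPc : IsPreconnected ((fun w => (R : ℂ) / (φ w - b)) '' S) := by
    apply hSc.image
    apply ContinuousOn.div continuousOn_const
    · exact (hφ.cont.mono (hS.trans ball_subset_closedBall)).sub continuousOn_const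
    · intro w hw
      exact hbD _ (hφD w (hS hw))
  have hPb : (fun w => (R : ℂ) / (φ w - b)) '' S ⊆ closedBall 0 (1 / E) := by
    rintro _ ⟨w, hw, rfl⟩
    rw [mem_closedBall, dist_zero_right, norm_div, Complex.norm_real, Real.norm_eq_abs,
      abs_of_pos hR]
    have h1 := hfar w hw
    have h2 := dist_triangle (φ w) b z
    rw [dist_comm b z, hzb, dist_eq_norm (φ w) b] at h2
    have h3 : E * R ≤ ‖φ w - b‖ := by linarith
    rw [div_le_div_iff₀ ((by positivity : 0 < E * R).trans_le h3) (by positivity)]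
    linarith
  have key := Pool.Agent.H91.M7.ext_disc hVo hGd hGi hGim hz.1 hGz (p := 0) (r := 1 / E) (R := 1)
    (by positivity) (by rw [div_lt_one (by positivity)]; exact hE1) hnz.ge hPc hPsub hPb
    ⟨a, ha, rfl⟩ ⟨a', ha', rfl⟩
  simp only at key
  rw [(hι _ (hφD a (hS ha))).2, (hι _ (hφD a' (hS ha'))).2, hgφ a (hS ha), hgφ a' (hS ha')] at key
  refine key.trans ?_
  rw [one_div_one_div, hE, Real.log_exp, Real.sqrt_sq (by positivity)]
  have : 0 < 32 * π / η := by positivity
  rw [div_le_iff₀ this]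
  apply le_of_eq
  field_simp

/-- **G1'.** Connected sets whose images are far from the centre are small. -/
theorem G1' {η : ℝ} (hη : 0 < η) : ∃ A : ℝ, 2 < A ∧ ∀ (Dom : Set ℂ) (φ : ℂ → ℂ) (z b : ℂ) (R : ℝ),
    DiscChart Dom φ → φ 0 = z → 0 < R → b ∉ Dom → dist z b = R → ∀ S ⊆ closedBall (0:ℂ) 1,
    IsPreconnected S → (∀ a ∈ S, A * R ≤ dist (φ a) z) → ∀ a ∈ S, ∀ a' ∈ S, dist a a' ≤ η := by
  obtain ⟨A, hA, h⟩ := G1'_open hη
  refine ⟨A + 1, by linarith, ?_⟩
  intro Dom φ z b R hφ h0 hR hb hzb S hS hSc hfar a ha a' ha'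
  by_contra hcon
  rw [not_le] at hcon
  have huc := (isCompact_closedBall (0:ℂ) 1).uniformContinuousOn_of_continuous hφ.cont
  rw [Metric.uniformContinuousOn_iff] at huc
  obtain ⟨τ, hτ, huc⟩ := huc R hR
  have hab : 0 < dist a a' := hη.trans hcon
  obtain ⟨t, ht0, ht1, ht2, ht3⟩ : ∃ t : ℝ, 0 < t ∧ t < 1 ∧ 1 - τ < t ∧ η / dist a a' < t := by
    have h1 : η / dist a a' < 1 := (div_lt_one hab).2 hcon
    have h2 : max 0 (max (1 - τ) (η / dist a a')) < 1 := max_lt one_pos (max_lt (by linarith) h1)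
    obtain ⟨t, ht, ht'⟩ := exists_between h2
    exact ⟨t, (le_max_left _ _).trans_lt ht, ht',
      ((le_max_left _ _).trans (le_max_right _ _)).trans_lt ht,
      ((le_max_right _ _).trans (le_max_right _ _)).trans_lt ht⟩
  have hsc : ∀ w ∈ closedBall (0:ℂ) 1, ((t : ℂ) * w) ∈ ball (0:ℂ) 1 ∧
      dist (φ (t * w)) (φ w) < R := by
    intro w hw
    rw [mem_closedBall, dist_zero_right] at hw
    have h1 : ‖(t : ℂ) * w‖ < 1 := by
      rw [norm_mul, Complex.norm_real, Real.norm_eq_abs, abs_of_pos ht0]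
      nlinarith [norm_nonneg w]
    have h2 : (t : ℂ) * w ∈ ball (0:ℂ) 1 := by rwa [mem_ball, dist_zero_right]
    refine ⟨h2, huc _ (ball_subset_closedBall h2) w (by rwa [mem_closedBall, dist_zero_right]) ?_⟩
    have e : (t : ℂ) * w - w = ((t - 1 : ℝ) : ℂ) * w := by push_cast; ring
    rw [dist_eq_norm, e, norm_mul, Complex.norm_real, Real.norm_eq_abs,
      abs_of_neg (by linarith)]
    nlinarith [norm_nonneg w]
  have key := h Dom φ z b R hφ h0 hR hb hzb ((fun w => (t : ℂ) * w) '' S) (by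
      rintro _ ⟨w, hw, rfl⟩
      exact (hsc w (hS hw)).1)
    (hSc.image _ (by fun_prop)) (by
      rintro _ ⟨w, hw, rfl⟩
      have h1 := (hsc w (hS hw)).2
      have h3 := hfar w hw
      have h5 := dist_triangle_left (φ w) z (φ (t * w))
      linarith) _ ⟨a, ha, rfl⟩ _ ⟨a', ha', rfl⟩
  have e : dist ((t : ℂ) * a) (t * a') = t * dist a a' := by
    rw [dist_eq_norm, ← mul_sub, norm_mul, Complex.norm_real, Real.norm_eq_abs, abs_of_pos ht0,
      dist_eq_norm]
  simp only at key
  rw [e] at key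
  rw [div_lt_iff₀ hab] at ht3
  linarith

/-- **G2.** Upper estimate of the chart on compact subsets of the disc. -/
theorem G2 {s : ℝ} (hs : s < 1) : ∃ A : ℝ, 2 < A ∧ ∀ (Dom : Set ℂ) (φ : ℂ → ℂ) (z b : ℂ) (R : ℝ),
    DiscChart Dom φ → φ 0 = z → 0 < R → b ∉ Dom → dist z b = R → ∀ w : ℂ, ‖w‖ ≤ s →
    dist (φ w) z ≤ A * R := by
  obtain ⟨A, hA, h⟩ := G1'_open (η := (1 - s) / 2) (by linarith)
  refine ⟨A, hA, ?_⟩
  intro Dom φ z b R hφ h0 hR hb hzb w hw
  by_contra hcon
  rw [not_le] at hcon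
  -- the component
  set V : Set ℂ := ball (0:ℂ) 1 ∩ {w | A * R < dist (φ w) z} with hV
  have hcφ : ContinuousOn φ (ball 0 1) := hφ.diff.continuousOn
  have hVo : IsOpen V := by
    have hd : Continuous (fun x : ℂ => dist x z) := by fun_prop
    have hc : ContinuousOn (fun w => dist (φ w) z) (ball (0:ℂ) 1) := hd.comp_continuousOn hcφ
    exact hc.isOpen_inter_preimage isOpen_ball isOpen_Ioi
  have hwV : w ∈ V := by
    refine ⟨?_, hcon⟩
    rw [mem_ball, dist_zero_right]
    linarith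
  set C := connectedComponentIn V w with hC
  have hCV : C ⊆ V := connectedComponentIn_subset V w
  have hwC : w ∈ C := mem_connectedComponentIn hwV
  have hCo : IsOpen C := hVo.connectedComponentIn
  have hCc : IsPreconnected C := isPreconnected_connectedComponentIn
  have hsmall := h Dom φ z b R hφ h0 hR hb hzb C (hCV.trans inter_subset_left) hCc
    (fun a ha => (hCV ha).2.le)
  have hCb : C ⊆ closedBall w ((1 - s) / 2) := fun a ha => hsmall a ha w hwC
  have hclC : closure C ⊆ closedBall w ((1 - s) / 2) := closure_minimal hCb isClosed_closedBall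
  have hball : closedBall w ((1 - s) / 2) ⊆ ball (0:ℂ) 1 := by
    intro a ha
    rw [mem_closedBall, dist_eq_norm] at ha
    rw [mem_ball, dist_zero_right]
    have h1 : ‖a‖ ≤ ‖a - w‖ + ‖w‖ := by
      have := norm_add_le (a - w) w
      simpa using this
    linarith
  have hfr : ∀ a ∈ frontier C, ‖φ a - z‖ ≤ A * R := by
    intro a ha
    have h1 : a ∈ closure C := frontier_subset_closure ha
    have h2 : a ∈ ball (0:ℂ) 1 := hball (hclC h1)
    by_contra hcon2
    rw [not_le] at hcon2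
    have haV : a ∈ V := ⟨h2, by rw [mem_ofPred_eq, dist_eq_norm]; exact hcon2⟩
    have h3 : a ∈ C := by
      have h4 : IsPreconnected (insert a C) := by
        apply hCc.subset_closure (subset_insert _ _)
        rw [insert_subset_iff]
        exact ⟨h1, subset_closure⟩
      exact h4.subset_connectedComponentIn (Or.inr hwC) (insert_subset haV hCV) (Or.inl rfl)
    rw [frontier, hCo.interior_eq] at ha
    exact ha.2 h3
  have hd : DiffContOnCl ℂ (fun a => φ a - z) C := by
    apply DifferentiableOn.diffContOnCl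
    exact (hφ.diff.mono (hclC.trans hball)).sub_const z
  have key := Complex.norm_le_of_forall_mem_frontier_norm_le
    (isBounded_closedBall.subset hCb) hd hfr (subset_closure hwC)
  rw [dist_eq_norm] at hcon
  linarith

end Pool.Agent.H69.UC
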