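import Mathlib
import Pool.Agent.H7.UC.IfaceA

set_option autoImplicit false
set_option linter.unusedSimpArgs false
open Set Filter Topology Metric
open scoped Real

/-!
# Geometry of the cells
-/

namespace Pool.Agent.H69.UC

open Pool.Agent.H7.UC

/-! ### coordinates -/

lemma om_re : om.re = 1 / 2 := by
  unfold om
  have : (Real.pi * Complex.I / 3 : ℂ) = ((Real.pi / 3 : ℝ) : ℂ) * Complex.I := by
    push_cast; ring
  rw [this, Complex.exp_ofReal_mul_I_re, Real.cos_pi_div_three]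

lemma om_im : om.im = √3 / 2 := by
  unfold om
  have : (Real.pi * Complex.I / 3 : ℂ) = ((Real.pi / 3 : ℝ) : ℂ) * Complex.I := by
    push_cast; ring
  rw [this, Complex.exp_ofReal_mul_I_im, Real.sin_pi_div_three]

/-- the coordinates: `z = A z + B z * om` -/
noncomputable def cA (z : ℂ) : ℝ := z.re - z.im / √3
noncomputable def cB (z : ℂ) : ℝ := 2 * z.im / √3

lemma sqrt3_pos : 0 < √(3:ℝ) := Real.sqrt_pos.2 (by norm_num)
lemma sqrt3_sq : √(3:ℝ) * √3 = 3 := Real.mul_self_sqrt (by norm_num)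

lemma cA_sub (z w : ℂ) : cA (z - w) = cA z - cA w := by
  simp only [cA, Complex.sub_re, Complex.sub_im]; ring
lemma cB_sub (z w : ℂ) : cB (z - w) = cB z - cB w := by
  simp only [cB, Complex.sub_im]; ring
lemma cA_add (z w : ℂ) : cA (z + w) = cA z + cA w := by
  simp only [cA, Complex.add_re, Complex.add_im]; ring
lemma cB_add (z w : ℂ) : cB (z + w) = cB z + cB w := by
  simp only [cB, Complex.add_im]; ring
lemma cA_div (z : ℂ) (n : ℝ) : cA (z / n) = cA z / n := by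
  simp only [cA, Complex.div_ofReal_re, Complex.div_ofReal_im]; ring
lemma cB_div (z : ℂ) (n : ℝ) : cB (z / n) = cB z / n := by
  simp only [cB, Complex.div_ofReal_im]; ring

lemma cA_ctr (f : Fc) : cA (ctr f) = f.1 := by
  have h := sqrt3_pos.ne'
  simp only [cA, ctr, Complex.add_re, Complex.add_im, Complex.mul_re, Complex.mul_im,
    Complex.intCast_re, Complex.intCast_im, om_re, om_im]
  field_simp
  ring

lemma cB_ctr (f : Fc) : cB (ctr f) = f.2 := by
  have h := sqrt3_pos.ne'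
  simp only [cB, ctr, Complex.add_im, Complex.mul_im,
    Complex.intCast_re, Complex.intCast_im, om_re, om_im]
  field_simp
  ring

lemma lin0 (z : ℂ) : 2 * (z * (starRingEnd ℂ) (om ^ 0)).re = 2 * cA z + cB z := by
  have h := sqrt3_pos.ne'
  simp [cA, cB]
  field_simp
  ring

lemma lin1 (z : ℂ) : 2 * (z * (starRingEnd ℂ) (om ^ 1)).re = cA z + 2 * cB z := by
  have h := sqrt3_pos.ne'
  have h3 := sqrt3_sq
  rw [pow_one]
  simp only [Complex.mul_re, Complex.conj_re, Complex.conj_im, om_re, om_im, cA, cB]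
  field_simp
  linear_combination z.im * h3

lemma lin2 (z : ℂ) : 2 * (z * (starRingEnd ℂ) (om ^ 2)).re = cB z - cA z := by
  have h := sqrt3_pos.ne'
  have h3 := sqrt3_sq
  rw [pow_two, map_mul]
  simp only [Complex.mul_re, Complex.mul_im, Complex.conj_re, Complex.conj_im, om_re, om_im, cA, cB]
  field_simp
  linear_combination (-z.re * √3 + 2 * z.im) * h3

lemma mem_cell (f : Fc) (z : ℂ) : z ∈ cell f ↔
    |2 * (cA z - f.1) + (cB z - f.2)| ≤ 1 ∧ |(cA z - f.1) + 2 * (cB z - f.2)| ≤ 1 ∧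
      |(cB z - f.2) - (cA z - f.1)| ≤ 1 := by
  have key : ∀ x : ℝ, |x| ≤ 1 / 2 ↔ |2 * x| ≤ 1 := by
    intro x
    rw [abs_mul, abs_two]
    constructor <;> intro h <;> linarith
  unfold cell
  simp only [mem_ofPred_eq, Fin.forall_fin_succ, Fin.val_zero,
    Fin.succ_zero_eq_one, Fin.val_one, Fin.succ_one_eq_two, Fin.val_two, IsEmpty.forall_iff, and_true]
  rw [key, key, key, lin0, lin1, lin2, cA_sub, cB_sub, cA_ctr, cB_ctr]

lemma ctr_mem_cell (f : Fc) : ctr f ∈ cell f := by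
  rw [mem_cell, cA_ctr, cB_ctr]
  simp

lemma eq_of_ctr_mem {f g : Fc} (h : ctr f ∈ cell g) : f = g := by
  rw [mem_cell, cA_ctr, cB_ctr] at h
  obtain ⟨h1, h2, h3⟩ := h
  have g1 : |2 * (f.1 - g.1) + (f.2 - g.2)| ≤ (1 : ℤ) := by exact_mod_cast h1
  have g2 : |(f.1 - g.1) + 2 * (f.2 - g.2)| ≤ (1 : ℤ) := by exact_mod_cast h2
  have g3 : |(f.2 - g.2) - (f.1 - g.1)| ≤ (1 : ℤ) := by exact_mod_cast h3
  rw [abs_le] at g1 g2 g3
  ext <;> omega

/-- the cells cover the plane -/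
lemma exists_cell (z : ℂ) : ∃ f, z ∈ cell f := by
  obtain ⟨i, hi⟩ : ∃ i : ℤ, i = ⌊cA z⌋ := ⟨_, rfl⟩
  obtain ⟨j, hj⟩ : ∃ j : ℤ, j = ⌊cB z⌋ := ⟨_, rfl⟩
  have h1 : (i : ℝ) ≤ cA z := by rw [hi]; exact Int.floor_le _
  have h2 : cA z < i + 1 := by rw [hi]; exact Int.lt_floor_add_one _
  have h3 : (j : ℝ) ≤ cB z := by rw [hj]; exact Int.floor_le _
  have h4 : cB z < j + 1 := by rw [hj]; exact Int.lt_floor_add_one _
  have key : ∀ f : Fc, (|2 * (cA z - f.1) + (cB z - f.2)| ≤ 1 ∧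
      |(cA z - f.1) + 2 * (cB z - f.2)| ≤ 1 ∧ |(cB z - f.2) - (cA z - f.1)| ≤ 1) → ∃ f, z ∈ cell f :=
    fun f h => ⟨f, (mem_cell f z).2 h⟩
  rcases le_total (cA z - i + (cB z - j)) 1 with h5 | h5
  · rcases le_total (cB z - j) (cA z - i) with h6 | h6
    · rcases le_total (2 * (cA z - i) + (cB z - j)) 1 with h7 | h7
      · apply key (i, j)
        simp only [abs_le]
        refine ⟨⟨?_, ?_⟩, ⟨?_, ?_⟩, ?_, ?_⟩ <;> linarith
      · apply key (i + 1, j)
        simp only [abs_le]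
        push_cast
        refine ⟨⟨?_, ?_⟩, ⟨?_, ?_⟩, ?_, ?_⟩ <;> linarith
    · rcases le_total ((cA z - i) + 2 * (cB z - j)) 1 with h7 | h7
      · apply key (i, j)
        simp only [abs_le]
        refine ⟨⟨?_, ?_⟩, ⟨?_, ?_⟩, ?_, ?_⟩ <;> linarith
      · apply key (i, j + 1)
        simp only [abs_le]
        push_cast
        refine ⟨⟨?_, ?_⟩, ⟨?_, ?_⟩, ?_, ?_⟩ <;> linarith
  · rcases le_total (cB z - j) (cA z - i) with h6 | h6
    · rcases le_total 2 ((cA z - i) + 2 * (cB z - j)) with h7 | h7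
      · apply key (i + 1, j + 1)
        simp only [abs_le]
        push_cast
        refine ⟨⟨?_, ?_⟩, ⟨?_, ?_⟩, ?_, ?_⟩ <;> linarith
      · apply key (i + 1, j)
        simp only [abs_le]
        push_cast
        refine ⟨⟨?_, ?_⟩, ⟨?_, ?_⟩, ?_, ?_⟩ <;> linarith
    · rcases le_total 2 (2 * (cA z - i) + (cB z - j)) with h7 | h7
      · apply key (i + 1, j + 1)
        simp only [abs_le]
        push_cast
        refine ⟨⟨?_, ?_⟩, ⟨?_, ?_⟩, ?_, ?_⟩ <;> linarith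
      · apply key (i, j + 1)
        simp only [abs_le]
        push_cast
        refine ⟨⟨?_, ?_⟩, ⟨?_, ?_⟩, ?_, ?_⟩ <;> linarith

/-- two cells which meet have a vertex in common -/
lemma exists_vx_of_meet {f g : Fc} {z : ℂ} (hf : z ∈ cell f) (hg : z ∈ cell g) :
    ∃ v k l, fc v k = f ∧ fc v l = g := by
  rw [mem_cell] at hf hg
  obtain ⟨h1, h2, h3⟩ := hf
  obtain ⟨h4, h5, h6⟩ := hg
  rw [abs_le] at h1 h2 h3 h4 h5 h6
  have g1 : -2 ≤ 2 * (g.1 - f.1) + (g.2 - f.2) ∧ 2 * (g.1 - f.1) + (g.2 - f.2) ≤ (2 : ℤ) := by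
    constructor
    · have : (-2 : ℝ) ≤ 2 * (g.1 - f.1) + (g.2 - f.2) := by linarith
      exact_mod_cast this
    · have : 2 * ((g.1 : ℝ) - f.1) + (g.2 - f.2) ≤ 2 := by linarith
      exact_mod_cast this
  have g2 : -2 ≤ (g.1 - f.1) + 2 * (g.2 - f.2) ∧ (g.1 - f.1) + 2 * (g.2 - f.2) ≤ (2 : ℤ) := by
    constructor
    · have : (-2 : ℝ) ≤ (g.1 - f.1) + 2 * (g.2 - f.2) := by linarith
      exact_mod_cast this
    · have : ((g.1 : ℝ) - f.1) + 2 * (g.2 - f.2) ≤ 2 := by linarith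
      exact_mod_cast this
  have g3 : -2 ≤ (g.2 - f.2) - (g.1 - f.1) ∧ (g.2 - f.2) - (g.1 - f.1) ≤ (2 : ℤ) := by
    constructor
    · have : (-2 : ℝ) ≤ (g.2 - f.2) - (g.1 - f.1) := by linarith
      exact_mod_cast this
    · have : ((g.2 : ℝ) - f.2) - (g.1 - f.1) ≤ 2 := by linarith
      exact_mod_cast this
  obtain ⟨i, j⟩ := f
  obtain ⟨i', j'⟩ := g
  simp only at g1 g2 g3
  have hcases : (i' = i ∧ j' = j) ∨ (i' = i + 1 ∧ j' = j) ∨ (i' = i - 1 ∧ j' = j) ∨
      (i' = i ∧ j' = j + 1) ∨ (i' = i ∧ j' = j - 1) ∨ (i' = i + 1 ∧ j' = j - 1) ∨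
      (i' = i - 1 ∧ j' = j + 1) := by omega
  rcases hcases with ⟨rfl, rfl⟩ | ⟨rfl, rfl⟩ | ⟨rfl, rfl⟩ | ⟨rfl, rfl⟩ | ⟨rfl, rfl⟩ | ⟨rfl, rfl⟩ |
    ⟨rfl, rfl⟩
  · exact ⟨(i', j', false), 1, 1, rfl, rfl⟩
  · exact ⟨(i, j', false), 1, 2, rfl, rfl⟩
  · exact ⟨(i - 1, j', false), 2, 1, by simp [fc], by simp [fc]⟩
  · exact ⟨(i', j, false), 1, 0, rfl, rfl⟩
  · exact ⟨(i', j - 1, false), 0, 1, by simp [fc], by simp [fc]⟩
  · exact ⟨(i, j - 1, false), 0, 2, by simp [fc], by simp [fc]⟩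
  · exact ⟨(i - 1, j, false), 2, 0, by simp [fc], by simp [fc]⟩

/-! ### vertices and edges -/

lemma cA_pv (v : Vx) : cA (pv v) = (cA (ctr (fc v 0)) + cA (ctr (fc v 1)) + cA (ctr (fc v 2))) / 3 := by
  have : pv v = (ctr (fc v 0) + ctr (fc v 1) + ctr (fc v 2)) / ((3 : ℝ) : ℂ) := by
    unfold pv; push_cast; rfl
  rw [this, cA_div, cA_add, cA_add]

lemma cB_pv (v : Vx) : cB (pv v) = (cB (ctr (fc v 0)) + cB (ctr (fc v 1)) + cB (ctr (fc v 2))) / 3 := by
  have : pv v = (ctr (fc v 0) + ctr (fc v 1) + ctr (fc v 2)) / ((3 : ℝ) : ℂ) := by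
    unfold pv; push_cast; rfl
  rw [this, cB_div, cB_add, cB_add]

lemma pv_mem_cell (v : Vx) (k : Fin 3) : pv v ∈ cell (fc v k) := by
  rw [mem_cell, cA_pv, cB_pv]
  simp only [cA_ctr, cB_ctr]
  obtain ⟨i, j, b⟩ := v
  cases b <;> fin_cases k <;> simp only [fc, abs_le, Fin.zero_eta, Fin.mk_one, Fin.reduceFinMk] <;>
    push_cast <;> refine ⟨⟨?_, ?_⟩, ⟨?_, ?_⟩, ?_, ?_⟩ <;> linarith

lemma mid_nb (v : Vx) (k : Fin 3) : mid (nb v k) k = mid v k := by
  unfold mid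
  rw [fc_nb1, fc_nb2, add_comm]

lemma pv_add_pv_nb (v : Vx) (k : Fin 3) : pv v + pv (nb v k) = 2 * mid v k := by
  obtain ⟨i, j, b⟩ := v
  cases b <;> fin_cases k <;>
    simp only [pv, mid, fc, nb, ctr, Fin.zero_eta, Fin.mk_one, Fin.reduceFinMk, Fin.isValue,
      Fin.reduceAdd, zero_add] <;> push_cast <;> ring

lemma mid_mem_segment (v : Vx) (k : Fin 3) : mid v k ∈ segment ℝ (pv v) (pv (nb v k)) := by
  refine ⟨1 / 2, 1 / 2, by norm_num, by norm_num, by norm_num, ?_⟩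
  have h := pv_add_pv_nb v k
  rw [Complex.real_smul, Complex.real_smul, ← mul_add, h]
  push_cast
  ring

lemma convex_cell (f : Fc) : Convex ℝ (cell f) := by
  have h : cell f = ⋂ k : Fin 3, {z : ℂ | |((z - ctr f) * (starRingEnd ℂ) (om ^ (k : ℕ))).re| ≤ 1 / 2} := by
    ext z; simp [cell]
  rw [h]
  apply convex_iInter
  intro k
  rw [convex_iff_forall_pos]
  intro x hx y hy a b ha hb hab
  simp only [mem_ofPred_eq] at hx hy ⊢
  have e : ((a • x + b • y - ctr f) * (starRingEnd ℂ) (om ^ (k : ℕ))).re =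
      a * ((x - ctr f) * (starRingEnd ℂ) (om ^ (k : ℕ))).re +
      b * ((y - ctr f) * (starRingEnd ℂ) (om ^ (k : ℕ))).re := by
    have e1 : a • x + b • y - ctr f = (a : ℂ) * (x - ctr f) + (b : ℂ) * (y - ctr f) := by
      rw [Complex.real_smul, Complex.real_smul]
      have : (a : ℂ) + b = 1 := by exact_mod_cast hab
      linear_combination (ctr f) * this
    rw [e1, add_mul, mul_assoc, mul_assoc, Complex.add_re, Complex.re_ofReal_mul,
      Complex.re_ofReal_mul]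
  rw [e]
  rw [abs_le] at hx hy ⊢
  constructor <;> nlinarith

lemma isClosed_cell (f : Fc) : IsClosed (cell f) := by
  have h : cell f = ⋂ k : Fin 3, {z : ℂ | |((z - ctr f) * (starRingEnd ℂ) (om ^ (k : ℕ))).re| ≤ 1 / 2} := by
    ext z; simp [cell]
  rw [h]
  apply isClosed_iInter
  intro k
  exact isClosed_le (by fun_prop) (by fun_prop)

lemma dist_ctr_le {f : Fc} {z : ℂ} (h : z ∈ cell f) : dist z (ctr f) ≤ 2 := by
  rw [mem_cell] at h
  obtain ⟨h1, h2, h3⟩ := h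
  rw [← cA_ctr f, ← cB_ctr f, ← cA_sub, ← cB_sub] at h1 h2 h3
  rw [dist_eq_norm]
  set w := z - ctr f
  rw [abs_le] at h1 h2 h3
  have e1 : w.re = cA w + cB w / 2 := by simp only [cA, cB]; ring
  have e2 : w.im = √3 / 2 * cB w := by
    simp only [cB]
    field_simp
  have h4 : |w.re| ≤ 1 / 2 := by rw [e1, abs_le]; constructor <;> linarith
  have h5 : |w.im| ≤ 1 := by
    rw [e2, abs_mul, abs_of_pos (by have := sqrt3_pos; positivity)]
    have h6 : |cB w| ≤ 2 / 3 := by rw [abs_le]; constructor <;> linarith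
    have h7 : √(3:ℝ) ≤ 2 := by
      rw [Real.sqrt_le_left (by norm_num)]; norm_num
    have h8 := sqrt3_pos
    nlinarith [abs_nonneg (cB w)]
  have := Complex.norm_le_abs_re_add_abs_im w
  linarith

lemma segment_subset_cell1 (v : Vx) (k : Fin 3) :
    segment ℝ (pv v) (pv (nb v k)) ⊆ cell (fc v (k + 1)) := by
  apply (convex_cell _).segment_subset (pv_mem_cell _ _)
  rw [← fc_nb2]
  exact pv_mem_cell _ _

lemma segment_subset_cell2 (v : Vx) (k : Fin 3) :
    segment ℝ (pv v) (pv (nb v k)) ⊆ cell (fc v (k + 2)) := by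
  apply (convex_cell _).segment_subset (pv_mem_cell _ _)
  rw [← fc_nb1]
  exact pv_mem_cell _ _

lemma dist_pv_mid (v : Vx) (k : Fin 3) : dist (pv v) (mid v k) ≤ 4 := by
  have h1 := dist_ctr_le (pv_mem_cell v (k + 1))
  have h2 := dist_ctr_le (segment_subset_cell1 v k (mid_mem_segment v k))
  have := dist_triangle_right (pv v) (mid v k) (ctr (fc v (k + 1)))
  linarith

lemma inE_iff (U : Finset Fc) (v : Vx) (k : Fin 3) :
    inE U (ed v k) ↔ fc v (k + 1) ∈ U ∨ fc v (k + 2) ∈ U := by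
  unfold inE
  rcases faces_ed v k with ⟨-, h1, h2⟩ | ⟨-, h1, h2⟩ <;> rw [h1, h2]
  rw [or_comm]

lemma isB_iff (U : Finset Fc) (v : Vx) (k : Fin 3) : isB U (ed v k) ↔
    (fc v (k + 1) ∈ U ∧ fc v (k + 2) ∉ U) ∨ (fc v (k + 1) ∉ U ∧ fc v (k + 2) ∈ U) := by
  unfold isB
  rcases faces_ed v k with ⟨-, h1, h2⟩ | ⟨-, h1, h2⟩ <;> rw [h1, h2]
  tauto

/-- an edge of `U` has a face in `U` whose cell contains the edge -/
lemma exists_face_of_inE {U : Finset Fc} {v : Vx} {k : Fin 3} (h : inE U (ed v k)) :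
    ∃ f ∈ U, (∃ l, fc v l = f) ∧ (∃ l, fc (nb v k) l = f) ∧
      segment ℝ (pv v) (pv (nb v k)) ⊆ cell f := by
  rw [inE_iff] at h
  rcases h with h | h
  · exact ⟨_, h, ⟨_, rfl⟩, ⟨k + 2, fc_nb2 v k⟩, segment_subset_cell1 v k⟩
  · exact ⟨_, h, ⟨_, rfl⟩, ⟨k + 1, fc_nb1 v k⟩, segment_subset_cell2 v k⟩

/-- a vertex with a face in `U` and a face outside has a boundary edge -/
lemma exists_isB {U : Finset Fc} {v : Vx} {k l : Fin 3} (h1 : fc v k ∈ U) (h2 : fc v l ∉ U) :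
    ∃ m, isB U (ed v m) := by
  have hkl : k ≠ l := by rintro rfl; exact h2 h1
  have : ∃ m : Fin 3, (k = m + 1 ∧ l = m + 2) ∨ (k = m + 2 ∧ l = m + 1) := by
    fin_cases k <;> fin_cases l <;> simp at hkl ⊢ <;> decide
  obtain ⟨m, ⟨rfl, rfl⟩ | ⟨rfl, rfl⟩⟩ := this
  · exact ⟨m, (isB_iff U v m).2 (Or.inl ⟨h1, h2⟩)⟩
  · exact ⟨m, (isB_iff U v m).2 (Or.inr ⟨h2, h1⟩)⟩

/-! ### the domain -/

lemma interior_cell_nonempty (f : Fc) : (interior (cell f)).Nonempty := by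
  refine ⟨ctr f, mem_interior.2 ⟨{z | ∀ k : Fin 3,
    |((z - ctr f) * (starRingEnd ℂ) (om ^ (k : ℕ))).re| < 1 / 2}, ?_, ?_, ?_⟩⟩
  · intro z hz k
    exact (hz k).le
  · have h : {z : ℂ | ∀ k : Fin 3, |((z - ctr f) * (starRingEnd ℂ) (om ^ (k : ℕ))).re| < 1 / 2} =
        ⋂ k : Fin 3, {z : ℂ | |((z - ctr f) * (starRingEnd ℂ) (om ^ (k : ℕ))).re| < 1 / 2} := by
      ext z; simp
    rw [h]
    apply isOpen_iInter_of_finite
    intro k
    exact isOpen_lt (by fun_prop) (by fun_prop)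
  · intro k
    simp

lemma isClosed_cells (U : Finset Fc) : IsClosed (⋃ f ∈ U, cell f) :=
  isClosed_biUnion_finset (fun f _ => isClosed_cell f)

lemma closure_reg (U : Finset Fc) : closure (reg U) = ⋃ f ∈ U, cell f := by
  apply Subset.antisymm
  · exact closure_minimal interior_subset (isClosed_cells U)
  · intro z hz
    rw [mem_iUnion₂] at hz
    obtain ⟨f, hf, hz⟩ := hz
    have h1 : interior (cell f) ⊆ reg U := interior_mono (subset_biUnion_of_mem (u := cell) hf)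
    have h2 := (convex_cell f).closure_interior_eq_closure_of_nonempty_interior
      (interior_cell_nonempty f)
    apply closure_mono h1
    rw [h2]
    exact subset_closure hz

lemma mem_closure_reg {U : Finset Fc} {z : ℂ} : z ∈ closure (reg U) ↔ ∃ f ∈ U, z ∈ cell f := by
  rw [closure_reg]; simp

lemma isOpen_reg (U : Finset Fc) : IsOpen (reg U) := isOpen_interior

/-- near `x` only the cells which contain `x` are met -/
lemma nearby (x : ℂ) : ∃ ε > 0, ∀ y, dist y x < ε → ∀ g, y ∈ cell g → x ∈ cell g := by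
  have hfin : {g : Fc | dist (ctr g) x ≤ 3}.Finite := by
    have h1 : {g : Fc | dist (ctr g) x ≤ 3} ⊆
        (Finset.Icc (⌊cA x⌋ - 20) (⌊cA x⌋ + 20) ×ˢ Finset.Icc (⌊cB x⌋ - 20) (⌊cB x⌋ + 20) :
          Finset (ℤ × ℤ)) := by
      intro g hg
      rw [mem_ofPred_eq, dist_eq_norm] at hg
      set w := ctr g - x with hw
      have h2 := (Complex.abs_re_le_norm w).trans hg
      have h3 := (Complex.abs_im_le_norm w).trans hg
      have h5 : (1:ℝ) ≤ √3 := by
        rw [Real.one_le_sqrt]; norm_num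
      have h4 : |w.im / √3| ≤ 3 := by
        rw [abs_div, abs_of_pos sqrt3_pos, div_le_iff₀ sqrt3_pos]
        nlinarith
      have h6 : |cA w| ≤ 6 := by
        unfold cA
        rw [abs_le] at h2 h4 ⊢
        constructor <;> linarith
      have h7 : |cB w| ≤ 6 := by
        have : cB w = 2 * (w.im / √3) := by unfold cB; ring
        rw [this]
        rw [abs_le] at h4 ⊢
        constructor <;> linarith
      rw [hw, cA_sub, cA_ctr, abs_le] at h6
      rw [hw, cB_sub, cB_ctr, abs_le] at h7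
      have a1 := Int.floor_le (cA x)
      have a2 := Int.lt_floor_add_one (cA x)
      have b1 := Int.floor_le (cB x)
      have b2 := Int.lt_floor_add_one (cB x)
      simp only [Finset.coe_product, Finset.coe_Icc, mem_prod, mem_Icc]
      refine ⟨⟨?_, ?_⟩, ?_, ?_⟩
      · have : ((⌊cA x⌋ - 20 : ℤ) : ℝ) ≤ g.1 := by push_cast; linarith
        exact_mod_cast this
      · have : (g.1 : ℝ) ≤ ((⌊cA x⌋ + 20 : ℤ) : ℝ) := by push_cast; linarith
        exact_mod_cast this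
      · have : ((⌊cB x⌋ - 20 : ℤ) : ℝ) ≤ g.2 := by push_cast; linarith
        exact_mod_cast this
      · have : (g.2 : ℝ) ≤ ((⌊cB x⌋ + 20 : ℤ) : ℝ) := by push_cast; linarith
        exact_mod_cast this
    exact (Finset.finite_toSet _).subset h1
  set K : Set ℂ := ⋃ g ∈ {g : Fc | dist (ctr g) x ≤ 3} ∩ {g | x ∉ cell g}, cell g with hK
  have hKc : IsClosed K := (hfin.inter_of_left _).isClosed_biUnion (fun g _ => isClosed_cell g)
  have hx : x ∉ K := by
    intro h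
    rw [hK, mem_iUnion₂] at h
    obtain ⟨g, ⟨-, hg⟩, h⟩ := h
    exact hg h
  obtain ⟨ε, hε, hball⟩ := Metric.isOpen_iff.1 hKc.isOpen_compl x hx
  refine ⟨min ε 1, by positivity, fun y hy g hg => ?_⟩
  by_contra hcon
  have h1 : y ∈ Kᶜ := hball (by rw [mem_ball]; exact hy.trans_le (min_le_left _ _))
  apply h1
  rw [hK, mem_iUnion₂]
  refine ⟨g, ⟨?_, hcon⟩, hg⟩
  rw [mem_ofPred_eq]
  have h2 := dist_ctr_le hg
  have h3 := hy.trans_le (min_le_right _ _)
  have h4 := dist_triangle_left (ctr g) x y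
  linarith

/-- a point of the closure outside the domain lies in a cell inside and in a cell outside -/
lemma exists_outside {U : Finset Fc} {x : ℂ} (h2 : x ∉ reg U) : ∃ g ∉ U, x ∈ cell g := by
  by_contra hcon
  push Not at hcon
  apply h2
  obtain ⟨ε, hε, h⟩ := nearby x
  refine mem_interior.2 ⟨ball x ε, ?_, isOpen_ball, mem_ball_self hε⟩
  intro y hy
  obtain ⟨g, hg⟩ := exists_cell y
  have h3 := h y hy g hg
  rw [mem_iUnion₂]
  exact ⟨g, by by_contra hU; exact hcon g hU h3, hg⟩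

end Pool.Agent.H69.UC
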