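import Mathlib
import Pool.Agent.H69.UC.Cells

set_option autoImplicit false
open Set Filter Topology Metric
open scoped Real

/-!
# Connected sets in the plane and in the graph of `U`
-/

namespace Pool.Agent.H69.UC

open Pool.Agent.H7.UC

/-- `v` is a vertex of the face `f` -/
def IsVx (f : Fc) (v : Vx) : Prop := ∃ k, fc v k = f

/-- adjacency of two vertices of the face `f` -/
def AdjVx (f : Fc) (a b : Vx) : Prop := IsVx f a ∧ IsVx f b ∧ ∃ k, b = nb a k ∧ (fc a (k + 1) = f ∨ fc a (k + 2) = f)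

lemma AdjVx.symm {f : Fc} {a b : Vx} (h : AdjVx f a b) : AdjVx f b a := by
  obtain ⟨h1, h2, k, rfl, h3⟩ := h
  refine ⟨h2, h1, k, (nb_nb a k).symm, ?_⟩
  rw [fc_nb1, fc_nb2]
  exact h3.symm

/-- the six vertices of a face -/
lemma isVx_cases {i j : ℤ} {v : Vx} (h : IsVx (i, j) v) :
    v = (i, j, false) ∨ v = (i - 1, j, true) ∨ v = (i - 1, j, false) ∨ v = (i - 1, j - 1, true) ∨
      v = (i, j - 1, false) ∨ v = (i, j - 1, true) := by
  obtain ⟨k, hk⟩ := h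
  obtain ⟨a, b, c⟩ := v
  cases c <;> fin_cases k <;> simp [fc] at hk ⊢ <;> omega

lemma rot1 (i j : ℤ) : AdjVx (i, j) (i, j, false) (i - 1, j, true) :=
  ⟨⟨1, rfl⟩, ⟨0, by simp [fc]⟩, 2, by simp [nb], Or.inr rfl⟩
lemma rot2 (i j : ℤ) : AdjVx (i, j) (i - 1, j, true) (i - 1, j, false) :=
  ⟨⟨0, by simp [fc]⟩, ⟨2, by simp [fc]⟩, 1, by simp [nb], by simp [fc]⟩
lemma rot3 (i j : ℤ) : AdjVx (i, j) (i - 1, j, false) (i - 1, j - 1, true) :=
  ⟨⟨2, by simp [fc]⟩, ⟨1, by simp [fc]⟩, 0, by simp [nb], by simp [fc]⟩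
lemma rot4 (i j : ℤ) : AdjVx (i, j) (i - 1, j - 1, true) (i, j - 1, false) :=
  ⟨⟨1, by simp [fc]⟩, ⟨0, by simp [fc]⟩, 2, by simp [nb], by simp [fc]⟩
lemma rot5 (i j : ℤ) : AdjVx (i, j) (i, j - 1, false) (i, j - 1, true) :=
  ⟨⟨0, by simp [fc]⟩, ⟨2, by simp [fc]⟩, 1, by simp [nb], by simp [fc]⟩

/-- the vertices of a face are connected through the edges of the face -/
lemma face_conn' (f : Fc) {v w : Vx} (hv : IsVx f v) (hw : IsVx f w) :
    Relation.ReflTransGen (AdjVx f) v w := by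
  obtain ⟨i, j⟩ := f
  have hsymm : ∀ a b, Relation.ReflTransGen (AdjVx (i, j)) a b →
      Relation.ReflTransGen (AdjVx (i, j)) b a := by
    intro a b h
    induction h with
    | refl => exact Relation.ReflTransGen.refl
    | tail _ h2 ih => exact Relation.ReflTransGen.head h2.symm ih
  have key : ∀ v, IsVx (i, j) v → Relation.ReflTransGen (AdjVx (i, j)) (i, j, false) v := by
    intro v hv
    have r1 : Relation.ReflTransGen (AdjVx (i, j)) (i, j, false) (i - 1, j, true) :=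
      Relation.ReflTransGen.single (rot1 i j)
    have r2 := r1.tail (rot2 i j)
    have r3 := r2.tail (rot3 i j)
    have r4 := r3.tail (rot4 i j)
    have r5 := r4.tail (rot5 i j)
    rcases isVx_cases hv with rfl | rfl | rfl | rfl | rfl | rfl
    · exact Relation.ReflTransGen.refl
    · exact r1
    · exact r2
    · exact r3
    · exact r4
    · exact r5
  exact (hsymm _ _ (key v hv)).trans (key w hw)

/-- vertices of the faces of `U` whose cells are touched by `Γ` -/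
def Cov (U : Finset Fc) (Γ : Set ℂ) : Set Vx := {v | ∃ f ∈ U, IsVx f v ∧ (cell f ∩ Γ).Nonempty}

/-- union of the cells of the faces of `U` which have a vertex in `T` -/
def Hat (U : Finset Fc) (T : Set Vx) : Set ℂ := ⋃ v ∈ T, ⋃ f ∈ U, ⋃ _ : IsVx f v, cell f

lemma mem_Hat {U : Finset Fc} {T : Set Vx} {z : ℂ} :
    z ∈ Hat U T ↔ ∃ v ∈ T, ∃ f ∈ U, IsVx f v ∧ z ∈ cell f := by
  simp only [Hat, mem_iUnion, exists_prop]

lemma face_conn {U : Finset Fc} {f : Fc} (hf : f ∈ U) {S : Set Vx} (hS : ∀ w, IsVx f w → w ∈ S)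
    {v w : Vx} (hv : IsVx f v) (hw : IsVx f w) :
    Relation.ReflTransGen (fun a b => b ∈ S ∧ ∃ k, b = nb a k ∧ inE U (ed a k)) v w := by
  refine Relation.ReflTransGen.mono (r := AdjVx f) ?_ _ _ (face_conn' f hv hw)
  rintro a b ⟨h1, h2, k, h3, h4⟩
  refine ⟨hS b h2, k, h3, ?_⟩
  rw [inE_iff]
  rcases h4 with h4 | h4
  · left; rw [h4]; exact hf
  · right; rw [h4]; exact hf

/-- the vertices of the cells touched by a connected set form a connected set -/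
theorem connSet_Cov {U : Finset Fc} {Γ : Set ℂ} (hΓ : IsPreconnected Γ)
    (hU : Γ ⊆ closure (reg U)) : ConnSet U (Cov U Γ) := by
  refine ⟨?_, ?_⟩
  · rintro v ⟨f, hf, ⟨k, hk⟩, -⟩
    exact ⟨k, hk ▸ hf⟩
  intro a ha b hb
  set R : Vx → Vx → Prop := fun a b => b ∈ Cov U Γ ∧ ∃ k, b = nb a k ∧ inE U (ed a k) with hR
  obtain ⟨f, hf, hfa, hft⟩ := ha
  obtain ⟨g, hg, hgb, hgt⟩ := hb
  -- the reachable vertices
  set C : Set Vx := {v | Relation.ReflTransGen R a v} with hC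
  have hface : ∀ f ∈ U, (cell f ∩ Γ).Nonempty → ∀ v w, IsVx f v → IsVx f w → v ∈ C → w ∈ C := by
    intro f hf hft v w hv hw hvC
    exact Relation.ReflTransGen.trans hvC
      (face_conn hf (S := Cov U Γ) (fun u hu => ⟨f, hf, hu, hft⟩) hv hw)
  obtain ⟨P, hP⟩ : ∃ P : Fc → Prop, ∀ f, P f ↔ (∃ v, IsVx f v ∧ v ∈ C) ∧ (cell f ∩ Γ).Nonempty :=
    ⟨fun f => (∃ v, IsVx f v ∧ v ∈ C) ∧ (cell f ∩ Γ).Nonempty, fun f => Iff.rfl⟩
  classical
  set A1 : Set ℂ := ⋃ f ∈ U.filter P, cell f with hA1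
  set A2 : Set ℂ := ⋃ f ∈ U.filter (fun f => ¬ P f), cell f with hA2
  have hc1 : IsClosed A1 := isClosed_cells _
  have hc2 : IsClosed A2 := isClosed_cells _
  have m1 : ∀ z, z ∈ A1 ↔ ∃ f ∈ U, P f ∧ z ∈ cell f := by
    intro z; simp only [hA1, mem_iUnion, exists_prop, Finset.mem_filter, and_assoc]
  have m2 : ∀ z, z ∈ A2 ↔ ∃ f ∈ U, ¬ P f ∧ z ∈ cell f := by
    intro z; simp only [hA2, mem_iUnion, exists_prop, Finset.mem_filter, and_assoc]
  by_contra hcon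
  have hgC : ¬ ∃ v, IsVx g v ∧ v ∈ C := by
    rintro ⟨v, hv, hvC⟩
    exact hcon (hface g hg hgt v b hv hgb hvC)
  have hcov : Γ ⊆ A1 ∪ A2 := by
    intro z hz
    obtain ⟨h, hh, hzh⟩ := mem_closure_reg.1 (hU hz)
    by_cases hx : P h
    · exact Or.inl ((m1 z).2 ⟨h, hh, hx, hzh⟩)
    · exact Or.inr ((m2 z).2 ⟨h, hh, hx, hzh⟩)
  have hn1 : (Γ ∩ A1).Nonempty := by
    obtain ⟨z, hz1, hz2⟩ := hft
    exact ⟨z, hz2, (m1 z).2 ⟨f, hf, (hP f).2 ⟨⟨a, hfa, Relation.ReflTransGen.refl⟩, ⟨z, hz1, hz2⟩⟩, hz1⟩⟩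
  have hn2 : (Γ ∩ A2).Nonempty := by
    obtain ⟨z, hz1, hz2⟩ := hgt
    exact ⟨z, hz2, (m2 z).2 ⟨g, hg, fun h => hgC ((hP g).1 h).1, hz1⟩⟩
  obtain ⟨z, hz, hz1, hz2⟩ := isPreconnected_closed_iff.1 hΓ A1 A2 hc1 hc2 hcov hn1 hn2
  obtain ⟨f1, hf1, hp1, hzf1⟩ := (m1 z).1 hz1
  obtain ⟨⟨v1, hv1, hvC1⟩, ht1⟩ := (hP f1).1 hp1
  obtain ⟨f2, hf2, hn, hzf2⟩ := (m2 z).1 hz2
  obtain ⟨v, k, l, hk, hl⟩ := exists_vx_of_meet hzf1 hzf2
  apply hn
  exact (hP f2).2 ⟨⟨v, ⟨l, hl⟩, hface f1 hf1 ht1 v1 v hv1 ⟨k, hk⟩ hvC1⟩, ⟨z, hzf2, hz⟩⟩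

/-- the cells around a connected set of vertices -/
theorem preconn_Hat {U : Finset Fc} {T : Set Vx} (hT : ConnSet U T) :
    IsPreconnected (Hat U T) := by
  apply IsPreconnected.biUnion_of_reflTransGen
  · intro v hv
    have : ∀ s ∈ {s : Set ℂ | ∃ f ∈ U, IsVx f v ∧ s = cell f}, IsPreconnected s := by
      rintro s ⟨f, hf, hfv, rfl⟩
      exact (convex_cell f).isPreconnected
    have h2 := isPreconnected_sUnion (pv v) {s : Set ℂ | ∃ f ∈ U, IsVx f v ∧ s = cell f}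
      (by
        rintro s ⟨f, hf, ⟨k, rfl⟩, rfl⟩
        exact pv_mem_cell v k) this
    convert h2 using 1
    ext z
    simp only [mem_iUnion, mem_sUnion, exists_prop, mem_ofPred_eq]
    constructor
    · rintro ⟨f, hf, hfv, hz⟩
      exact ⟨cell f, ⟨f, hf, hfv, rfl⟩, hz⟩
    · rintro ⟨s, ⟨f, hf, hfv, rfl⟩, hz⟩
      exact ⟨f, hf, hfv, hz⟩
  · intro a ha b hb
    have h := hT.2 a ha b hb
    clear hb
    induction h with
    | refl => exact Relation.ReflTransGen.refl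
    | @tail c d h1 h2 ih =>
      have hc : c ∈ T := by
        rcases Relation.ReflTransGen.cases_tail h1 with h3 | ⟨e, -, h3⟩
        · rw [h3]; exact ha
        · exact h3.1
      refine ih.tail ⟨?_, hc⟩
      obtain ⟨hd, k, rfl, hk⟩ := h2
      obtain ⟨f, hf, ⟨l, hl⟩, ⟨l', hl'⟩, -⟩ := exists_face_of_inE hk
      refine ⟨pv c, ?_, ?_⟩
      · simp only [mem_iUnion, exists_prop]
        exact ⟨f, hf, ⟨l, hl⟩, hl ▸ pv_mem_cell c l⟩
      · simp only [mem_iUnion, exists_prop]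
        exact ⟨f, hf, ⟨l', hl'⟩, hl ▸ pv_mem_cell c l⟩

/-- a path in the graph as a connected set in the plane -/
lemma exists_continuum {U : Finset Fc} {S : Set Vx} {z0 v : Vx} (hz0 : z0 ∉ S)
    (h : Relation.ReflTransGen (fun a b => b ∉ S ∧ inV U b ∧ ∃ k, b = nb a k ∧ inE U (ed a k)) z0 v) :
    v ∉ S ∧ ∃ W : Set ℂ, IsPreconnected W ∧ pv z0 ∈ W ∧ pv v ∈ W ∧ ∀ y ∈ W, y = pv z0 ∨
      ∃ a k, a ∉ S ∧ inE U (ed a k) ∧ y ∈ segment ℝ (pv a) (pv (nb a k)) := by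
  induction h with
  | refl => exact ⟨hz0, {pv z0}, isPreconnected_singleton, rfl, rfl, fun y hy => Or.inl hy⟩
  | @tail c d h1 h2 ih =>
    obtain ⟨hc, W, hW, hW1, hW2, hW3⟩ := ih
    obtain ⟨hd, -, k, rfl, hk⟩ := h2
    refine ⟨hd, W ∪ segment ℝ (pv c) (pv (nb c k)), ?_, Or.inl hW1, Or.inr (right_mem_segment _ _ _),
      ?_⟩
    · exact hW.union _ hW2 (left_mem_segment _ _ _) (convex_segment _ _).isPreconnected
    · rintro y (hy | hy)
      · exact hW3 y hy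
      · exact Or.inr ⟨c, k, hc, hk, hy⟩

/-- preimages of connected sets under the chart -/
lemma preconn_preimage {φ : ℂ → ℂ} (hc : ContinuousOn φ (closedBall 0 1))
    (hi : InjOn φ (closedBall 0 1)) {W : Set ℂ} (hW : IsPreconnected W)
    (hsub : W ⊆ φ '' closedBall 0 1) : IsPreconnected (closedBall 0 1 ∩ φ ⁻¹' W) := by
  have hK : CompactSpace (closedBall (0:ℂ) 1) := isCompact_iff_compactSpace.1 (isCompact_closedBall 0 1)
  have hemb : IsClosedEmbedding ((closedBall (0:ℂ) 1).domRestrict φ) :=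
    (continuousOn_iff_continuous_domRestrict.1 hc).isClosedEmbedding (injOn_iff_injective.1 hi)
  have h1 : (closedBall (0:ℂ) 1).domRestrict φ '' ((closedBall (0:ℂ) 1).domRestrict φ ⁻¹' W) = W := by
    rw [image_preimage_eq_iff, range_domRestrict]
    exact hsub
  have h2 : IsPreconnected ((closedBall (0:ℂ) 1).domRestrict φ ⁻¹' W) := by
    rw [← hemb.isInducing.isPreconnected_image, h1]
    exact hW
  have h3 := h2.image _ continuous_subtype_val.continuousOn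
  convert h3 using 1
  ext z
  simp only [mem_inter_iff, mem_preimage, mem_image, domRestrict_apply, Subtype.exists]
  constructor
  · rintro ⟨h4, h5⟩
    exact ⟨z, h4, h5, rfl⟩
  · rintro ⟨w, h4, h5, rfl⟩
    exact ⟨h4, h5⟩

end Pool.Agent.H69.UC
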