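import Mathlib
import Pool.Agent.H69.UC.Graph

set_option autoImplicit false
open Set Filter Topology Metric
open scoped Real

/-!
# Separation in the graph of `U` by images of circles; hidden marks
-/

namespace Pool.Agent.H69.UC

open Pool.Agent.H7.UC

lemma dist_pv_le {f : Fc} {v : Vx} {y : ℂ} (hv : IsVx f v) (hy : y ∈ cell f) :
    dist (pv v) y ≤ 4 := by
  obtain ⟨k, rfl⟩ := hv
  have h1 := dist_ctr_le (pv_mem_cell v k)
  have h2 := dist_ctr_le hy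
  have := dist_triangle_right (pv v) y (ctr (fc v k))
  linarith

lemma Cov_mono {U : Finset Fc} {Γ Γ' : Set ℂ} (h : Γ ⊆ Γ') : Cov U Γ ⊆ Cov U Γ' := by
  rintro v ⟨f, hf, hv, y, hy, hy'⟩
  exact ⟨f, hf, hv, y, hy, h hy'⟩

/-- points of `Γ` are in the cells around `Cov U Γ` -/
lemma subset_Hat_Cov {U : Finset Fc} {Γ : Set ℂ} (hΓ : Γ ⊆ closure (reg U)) :
    Γ ⊆ Hat U (Cov U Γ) := by
  intro y hy
  obtain ⟨f, hf, hyf⟩ := mem_closure_reg.1 (hΓ hy)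
  have : ∃ v, IsVx f v := by
    obtain ⟨i, j⟩ := f
    exact ⟨(i, j, false), 1, rfl⟩
  obtain ⟨v, hv⟩ := this
  exact mem_Hat.2 ⟨v, ⟨f, hf, hv, y, hyf, hy⟩, f, hf, hv, hyf⟩

lemma Hat_mono {U : Finset Fc} {T T' : Set Vx} (h : T ⊆ T') : Hat U T ⊆ Hat U T' := by
  intro y hy
  obtain ⟨v, hv, f, hf, hfv, hy⟩ := mem_Hat.1 hy
  exact mem_Hat.2 ⟨v, h hv, f, hf, hfv, hy⟩

lemma Hat_subset {U : Finset Fc} {T : Set Vx} : Hat U T ⊆ closure (reg U) := by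
  intro y hy
  obtain ⟨v, hv, f, hf, hfv, hy⟩ := mem_Hat.1 hy
  exact mem_closure_reg.2 ⟨f, hf, hy⟩

/-- a frontier point of `Γ` gives a boundary vertex -/
lemma exists_bd_vx {U : Finset Fc} {Γ : Set ℂ} {y : ℂ} (hy : y ∈ Γ) (h1 : y ∈ closure (reg U))
    (h2 : y ∉ reg U) : ∃ v ∈ Cov U Γ, ∃ k, isB U (ed v k) := by
  obtain ⟨f, hf, hyf⟩ := mem_closure_reg.1 h1
  obtain ⟨g, hg, hyg⟩ := exists_outside h2
  obtain ⟨v, k, l, hk, hl⟩ := exists_vx_of_meet hyf hyg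
  refine ⟨v, ⟨f, hf, ⟨k, hk⟩, y, hyf, hy⟩, exists_isB (k := k) (l := l) ?_ ?_⟩
  · rw [hk]; exact hf
  · rw [hl]; exact hg

lemma mid_mem_closure {U : Finset Fc} {v : Vx} {k : Fin 3} (h : inE U (ed v k)) :
    segment ℝ (pv v) (mid v k) ⊆ segment ℝ (pv v) (pv (nb v k)) :=
  (convex_segment _ _).segment_subset (left_mem_segment _ _ _) (mid_mem_segment v k)

/-- **Separation**: the vertices of the cells touched by the image of a circle separate the edges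
inside the circle from the centre. -/
theorem not_out {U : Finset Fc} {φ : ℂ → ℂ} {z q : ℂ} {ρ : ℝ} {f0 : Fc} {z0 : Vx} {S : Set Vx}
    {Γ : Set ℂ} (hφ : DiscChart (reg U) φ) (h0 : φ 0 = z) (hf0 : f0 ∈ U) (hzf : z ∈ cell f0)
    (hz0 : IsVx f0 z0) (hΓ : ∀ w, dist w q = ρ → ‖w‖ ≤ 1 → φ w ∈ Γ) (hS : Cov U Γ ⊆ S)
    (hz0S : z0 ∉ S) (hq : ρ < ‖q‖) {v : Vx} {k : Fin 3} {q1 : ℂ} (hE : inE U (ed v k))
    (hq1 : ‖q1‖ ≤ 1) (hq1' : φ q1 = mid v k) (hd : dist q1 q < ρ) : v ∉ Out U S z0 := by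
  rintro ⟨hvS, hpath⟩
  obtain ⟨-, W, hWc, hW0, hWv, hWall⟩ := exists_continuum hz0S hpath
  obtain ⟨f1, hf1, hv1, -, hseg1⟩ := exists_face_of_inE hE
  set W' : Set ℂ := (segment ℝ z (pv z0) ∪ W) ∪ segment ℝ (pv v) (mid v k) with hW'
  have hs0 : segment ℝ z (pv z0) ⊆ cell f0 := by
    obtain ⟨l, rfl⟩ := hz0
    exact (convex_cell _).segment_subset hzf (pv_mem_cell z0 l)
  have hs1 : segment ℝ (pv v) (mid v k) ⊆ cell f1 := (mid_mem_closure hE).trans hseg1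
  have hW'c : IsPreconnected W' := by
    apply IsPreconnected.union (pv v) (Or.inr hWv) (left_mem_segment _ _ _)
    · exact IsPreconnected.union (pv z0) (right_mem_segment _ _ _) hW0
        (convex_segment _ _).isPreconnected hWc
    · exact (convex_segment _ _).isPreconnected
  have hW's : W' ⊆ closure (reg U) := by
    rintro y ((hy | hy) | hy)
    · exact mem_closure_reg.2 ⟨f0, hf0, hs0 hy⟩
    · rcases hWall y hy with rfl | ⟨a, k', -, hk', hy'⟩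
      · exact mem_closure_reg.2 ⟨f0, hf0, hs0 (right_mem_segment _ _ _)⟩
      · obtain ⟨f2, hf2, -, -, hseg2⟩ := exists_face_of_inE hk'
        exact mem_closure_reg.2 ⟨f2, hf2, hseg2 hy'⟩
    · exact mem_closure_reg.2 ⟨f1, hf1, hs1 hy⟩
  have hEc : IsPreconnected (closedBall 0 1 ∩ φ ⁻¹' W') :=
    preconn_preimage hφ.cont hφ.inj hW'c (by rw [hφ.imgc]; exact hW's)
  have m0 : (0:ℂ) ∈ closedBall (0:ℂ) 1 ∩ φ ⁻¹' W' := by
    refine ⟨mem_closedBall_self zero_le_one, ?_⟩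
    rw [mem_preimage, h0]
    exact Or.inl (Or.inl (left_mem_segment _ _ _))
  have m1 : q1 ∈ closedBall (0:ℂ) 1 ∩ φ ⁻¹' W' := by
    refine ⟨by rwa [mem_closedBall, dist_zero_right], ?_⟩
    rw [mem_preimage, hq1']
    exact Or.inr (right_mem_segment _ _ _)
  obtain ⟨e, ⟨he1, he2⟩, he3⟩ := hEc.intermediate_value m1 m0
    (f := fun w => dist w q) (by fun_prop) ⟨hd.le, by rw [dist_zero_left]; exact hq.le⟩
  rw [mem_closedBall, dist_zero_right] at he1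
  have heΓ := hΓ e he3 he1
  rcases he2 with (he2 | he2) | he2
  · exact hz0S (hS ⟨f0, hf0, hz0, φ e, hs0 he2, heΓ⟩)
  · rcases hWall _ he2 with h | ⟨a, k', ha, hk', hy'⟩
    · apply hz0S
      apply hS
      refine ⟨f0, hf0, hz0, φ e, ?_, heΓ⟩
      rw [h]
      exact hs0 (right_mem_segment _ _ _)
    · obtain ⟨f2, hf2, hv2, -, hseg2⟩ := exists_face_of_inE hk'
      exact ha (hS ⟨f2, hf2, hv2, φ e, hseg2 hy', heΓ⟩)
  · exact hvS (hS ⟨f1, hf1, hv1, φ e, hs1 he2, heΓ⟩)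

/-- **No mark is hidden** by a connected set of vertices whose cells have a small preimage. -/
theorem marks_out {U : Finset Fc} {M : Marks U 3} {φ : ℂ → ℂ} {z q : ℂ} {ρ η κ : ℝ} {f0 : Fc}
    {z0 : Vx} {p : Fin 3 → ℂ} {T : Set Vx} {w0 w1 : ℂ} (hφ : DiscChart (reg U) φ) (h0 : φ 0 = z)
    (hf0 : f0 ∈ U) (hzf : z ∈ cell f0) (hz0 : IsVx f0 z0)
    (hmark : ∀ j, ‖p j‖ = 1 ∧ φ (p j) = pv (M.u j)) (hκ : ∀ j, κ ≤ ‖q - p j‖)
    (h6 : 6 * η < κ) (h4 : 4 * η < 1) (hw0 : ‖w0‖ ≤ 1) (hw0q : dist w0 q = ρ) (hρ : ρ ≤ η)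
    (hw0T : φ w0 ∈ Hat U T) (hw1 : ‖w1‖ = 1) (hw1T : φ w1 ∈ Hat U T)
    (hE : ∀ a ∈ closedBall (0:ℂ) 1 ∩ φ ⁻¹' Hat U T, ∀ b ∈ closedBall (0:ℂ) 1 ∩ φ ⁻¹' Hat U T,
      dist a b ≤ η) :
    1 - 2 * η ≤ ‖q‖ ∧ z0 ∉ T ∧ ∀ j, M.u j ∈ Out U T z0 := by
  have m0 : w0 ∈ closedBall (0:ℂ) 1 ∩ φ ⁻¹' Hat U T :=
    ⟨by rwa [mem_closedBall, dist_zero_right], hw0T⟩
  have m1 : w1 ∈ closedBall (0:ℂ) 1 ∩ φ ⁻¹' Hat U T :=
    ⟨by rw [mem_closedBall, dist_zero_right]; exact hw1.le, hw1T⟩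
  have hEq : ∀ e ∈ closedBall (0:ℂ) 1 ∩ φ ⁻¹' Hat U T, dist e q ≤ 2 * η := by
    intro e he
    have h1 := hE e he w0 m0
    have h2 := dist_triangle e w0 q
    linarith
  have hq1 : 1 - 2 * η ≤ ‖q‖ := by
    have h1 := hEq w1 m1
    rw [dist_eq_norm] at h1
    have h2 := norm_sub_norm_le w1 q
    linarith
  have key : ∀ j, ∀ e ∈ segment ℝ (0:ℂ) (p j), φ e ∉ Hat U T := by
    intro j e he hH
    obtain ⟨t, ht, rfl⟩ : ∃ t ∈ Icc (0:ℝ) 1, e = t • p j := by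
      rw [segment_eq_image] at he
      obtain ⟨t, ht, rfl⟩ := he
      exact ⟨t, ht, by simp⟩
    have hn : ‖t • p j‖ = t := by
      rw [norm_smul, Real.norm_eq_abs, abs_of_nonneg ht.1, (hmark j).1, mul_one]
    have h1 := hEq (t • p j) ⟨by rw [mem_closedBall, dist_zero_right, hn]; exact ht.2, hH⟩
    have h2 : ‖q‖ ≤ t + 2 * η := by
      rw [dist_comm, dist_eq_norm] at h1
      have := norm_sub_norm_le q (t • p j)
      rw [hn] at this
      linarith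
    have h3 : dist (t • p j) (p j) = 1 - t := by
      have : t • p j - p j = (t - 1) • p j := by rw [sub_smul, one_smul]
      rw [dist_eq_norm, this, norm_smul, (hmark j).1, mul_one, Real.norm_eq_abs,
        abs_of_nonpos (by linarith [ht.2])]
      ring
    have h4' := hκ j
    rw [← dist_eq_norm] at h4'
    have h5 := dist_triangle_left q (p j) (t • p j)
    linarith
  have hz0T : z0 ∉ T := by
    intro h
    refine key 0 0 (left_mem_segment _ _ _) ?_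
    rw [h0]
    exact mem_Hat.2 ⟨z0, h, f0, hf0, hz0, hzf⟩
  refine ⟨hq1, hz0T, fun j => ?_⟩
  set W1 : Set ℂ := φ '' segment ℝ (0:ℂ) (p j) with hW1
  have hsegb : segment ℝ (0:ℂ) (p j) ⊆ closedBall (0:ℂ) 1 :=
    (convex_closedBall _ _).segment_subset (mem_closedBall_self zero_le_one)
      (by rw [mem_closedBall, dist_zero_right]; exact (hmark j).1.le)
  have hW1c : IsPreconnected W1 :=
    (convex_segment _ _).isPreconnected.image φ (hφ.cont.mono hsegb)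
  have hW1s : W1 ⊆ closure (reg U) := by
    rw [← hφ.imgc]
    exact image_mono hsegb
  have hconn := connSet_Cov hW1c hW1s
  have hCT : ∀ v ∈ Cov U W1, v ∉ T := by
    rintro v ⟨f, hf, hfv, y, hy, ⟨e, he, rfl⟩⟩ hvT
    exact key j e he (mem_Hat.2 ⟨v, hvT, f, hf, hfv, hy⟩)
  have hz0C : z0 ∈ Cov U W1 := ⟨f0, hf0, hz0, z, hzf, 0, left_mem_segment _ _ _, h0⟩
  have huC : M.u j ∈ Cov U W1 := by
    obtain ⟨k, hk, -, -, -⟩ := M.out j
    exact ⟨fc (M.u j) k, hk, ⟨k, rfl⟩, pv (M.u j), pv_mem_cell _ _, p j, right_mem_segment _ _ _,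
      (hmark j).2⟩
  refine ⟨hCT _ huC, ?_⟩
  refine Relation.ReflTransGen.mono ?_ _ _ (hconn.2 z0 hz0C _ huC)
  rintro a b ⟨hb, hk⟩
  exact ⟨hCT b hb, hconn.1 b hb, hk⟩

/-- leaving the domain along a segment -/
lemma exists_exit {U : Finset Fc} {x u : ℂ} (hx : x ∈ closure (reg U)) {T : ℝ} (hT : 0 ≤ T)
    (hout : x + T * u ∉ reg U) : ∃ t ∈ Icc 0 T, x + t * u ∉ reg U ∧
      ∀ s ∈ Icc 0 t, x + s * u ∈ closure (reg U) := by
  have hc : Continuous (fun t : ℝ => x + t * u) := by fun_prop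
  set F : Set ℝ := Icc 0 T ∩ (fun t : ℝ => x + t * u) ⁻¹' (reg U)ᶜ with hF
  have hFc : IsClosed F := isClosed_Icc.inter ((isOpen_reg U).isClosed_compl.preimage hc)
  have hne : F.Nonempty := ⟨T, ⟨hT, le_rfl⟩, hout⟩
  have hbdd : BddBelow F := ⟨0, fun t ht => ht.1.1⟩
  have hm : sInf F ∈ F := hFc.csInf_mem hne hbdd
  refine ⟨sInf F, hm.1, hm.2, ?_⟩
  have hlt : ∀ s, 0 ≤ s → s < sInf F → x + s * u ∈ reg U := by
    intro s h0 hs
    by_contra hcon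
    exact absurd (csInf_le hbdd ⟨⟨h0, hs.le.trans hm.1.2⟩, hcon⟩) (not_le.2 hs)
  intro s hs
  rcases eq_or_lt_of_le hs.2 with rfl | h
  · rcases eq_or_lt_of_le hm.1.1 with h0 | h0
    · rw [← h0]
      simpa using hx
    · have h1 : sInf F ∈ closure (Ico 0 (sInf F)) := by
        rw [closure_Ico h0.ne]
        exact ⟨h0.le, le_rfl⟩
      have h2 := map_mem_closure hc h1 (t := reg U) (fun s hs => hlt s hs.1 hs.2)
      exact h2
  · exact subset_closure (hlt s hs.1 h)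

end Pool.Agent.H69.UC
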