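import Mathlib
import Pool.Agent.H69.Car.Ext

set_option autoImplicit false
open Set Filter Topology Metric
open scoped Real ENNReal

/-!
# Short images of circular arcs
-/

namespace Pool.Agent.H69.UC

open Pool.Agent.H96.M7 Pool.Agent.H69.Car

lemma cos_lt_max {t1 t2 t : ℝ} (h0 : 0 ≤ t1) (h1 : t1 < t) (h2 : t < t2) (h3 : t2 ≤ 2 * π) :
    Real.cos t < max (Real.cos t1) (Real.cos t2) := by
  rcases le_total t π with h | h
  · exact lt_max_of_lt_left (Real.cos_lt_cos_of_nonneg_of_le_pi h0 h h1)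
  · apply lt_max_of_lt_right
    have := Real.cos_lt_cos_of_nonneg_of_le_pi (x := 2 * π - t2) (y := 2 * π - t) (by linarith)
      (by linarith) (by linarith)
    rwa [Real.cos_two_pi_sub, Real.cos_two_pi_sub] at this

/-- the angle of a point of a circle -/
lemma exists_angle {q : ℂ} {ρ : ℝ} (hρ : 0 < ρ) {u : ℂ} (hu : dist u q = ρ) :
    ∃ t ∈ Ioc 0 (2 * π), circleMap q ρ (Complex.arg q + t) = u := by
  have h3 : (u - q) * Complex.exp (-(Complex.arg q * Complex.I)) ∈ sphere (0 : ℂ) |ρ| := by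
    rw [mem_sphere_zero_iff_norm, norm_mul, abs_of_pos hρ, ← hu, dist_eq_norm]
    have : ‖Complex.exp (-(Complex.arg q * Complex.I))‖ = 1 := by
      rw [← neg_mul, ← Complex.ofReal_neg, Complex.norm_exp_ofReal_mul_I]
    rw [this, mul_one]
  rw [← image_circleMap_Ioc] at h3
  obtain ⟨t, ht, he⟩ := h3
  refine ⟨t, ht, ?_⟩
  have h4 : Complex.exp (((Complex.arg q + t : ℝ) : ℂ) * Complex.I) =
      Complex.exp (Complex.arg q * Complex.I) * Complex.exp (t * Complex.I) := by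
    rw [← Complex.exp_add]
    push_cast
    ring_nf
  have h5 : Complex.exp (Complex.arg q * Complex.I) * Complex.exp (-(Complex.arg q * Complex.I)) = 1 := by
    rw [← Complex.exp_add, add_neg_cancel, Complex.exp_zero]
  rw [circleMap, zero_add] at he
  rw [circleMap, h4]
  linear_combination Complex.exp (Complex.arg q * Complex.I) * he + (u - q) * h5

/-- Two points of the closed disc on a circle are joined by an arc of the circle in the disc. -/
lemma exists_arc' {q : ℂ} {ρ : ℝ} (hρ : 0 < ρ) (hρ1 : ρ < 1) {w w' : ℂ} (hw : ‖w‖ ≤ 1)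
    (hw' : ‖w'‖ ≤ 1) (h1 : dist w q = ρ) (h2 : dist w' q = ρ) :
    ∃ a b : ℝ, a ≤ b ∧ b ≤ a + 2 * π ∧ (∀ θ ∈ Ioo a b, circleMap q ρ θ ∈ ball (0:ℂ) 1) ∧
      ((circleMap q ρ a = w ∧ circleMap q ρ b = w') ∨
       (circleMap q ρ a = w' ∧ circleMap q ρ b = w)) := by
  have main : ∀ t1 ∈ Ioc 0 (2 * π), ∀ t2 ∈ Ioc 0 (2 * π), t1 ≤ t2 →
      ‖circleMap q ρ (Complex.arg q + t1)‖ ≤ 1 → ‖circleMap q ρ (Complex.arg q + t2)‖ ≤ 1 →
      ∀ θ ∈ Ioo (Complex.arg q + t1) (Complex.arg q + t2), circleMap q ρ θ ∈ ball (0:ℂ) 1 := by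
    intro t1 ht1 t2 ht2 h12 n1 n2 θ hθ
    obtain ⟨t, rfl⟩ : ∃ t, θ = Complex.arg q + t := ⟨θ - Complex.arg q, by ring⟩
    have h3 : t1 < t := by linarith [hθ.1]
    have h4 : t < t2 := by linarith [hθ.2]
    have h5 := cos_lt_max ht1.1.le h3 h4 ht2.2
    have m1 : ‖circleMap q ρ (Complex.arg q + t1)‖ ^ 2 ≤ 1 := by
      rw [sq_le_one_iff_abs_le_one, abs_of_nonneg (norm_nonneg _)]; exact n1
    have m2 : ‖circleMap q ρ (Complex.arg q + t2)‖ ^ 2 ≤ 1 := by
      rw [sq_le_one_iff_abs_le_one, abs_of_nonneg (norm_nonneg _)]; exact n2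
    rw [normSq_circle] at m1 m2
    have h6 : ‖circleMap q ρ (Complex.arg q + t)‖ ^ 2 < 1 := by
      rw [normSq_circle]
      rcases eq_or_ne q 0 with rfl | hq
      · simp only [norm_zero]
        nlinarith
      · have hz : 0 < 2 * ‖q‖ * ρ := by positivity
        rcases lt_max_iff.1 h5 with h | h
        · have := mul_lt_mul_of_pos_left h hz
          linarith
        · have := mul_lt_mul_of_pos_left h hz
          linarith
    rw [sq_lt_one_iff_abs_lt_one, abs_of_nonneg (norm_nonneg _)] at h6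
    rwa [mem_ball_zero_iff]
  obtain ⟨t1, ht1, e1⟩ := exists_angle hρ h1
  obtain ⟨t2, ht2, e2⟩ := exists_angle hρ h2
  rcases le_total t1 t2 with h | h
  · refine ⟨Complex.arg q + t1, Complex.arg q + t2, by linarith, by linarith [ht1.1, ht2.2], ?_,
      Or.inl ⟨e1, e2⟩⟩
    exact main t1 ht1 t2 ht2 h (by rw [e1]; exact hw) (by rw [e2]; exact hw')
  · refine ⟨Complex.arg q + t2, Complex.arg q + t1, by linarith, by linarith [ht1.2, ht2.1], ?_,
      Or.inr ⟨e2, e1⟩⟩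
    exact main t2 ht2 t1 ht1 h (by rw [e2]; exact hw') (by rw [e1]; exact hw)

/-- the whole closed arc is in the closed disc -/
lemma arc_closed {q : ℂ} {ρ a b : ℝ} (h : ∀ θ ∈ Ioo a b, circleMap q ρ θ ∈ ball (0:ℂ) 1)
    (ha : ‖circleMap q ρ a‖ ≤ 1) (hb : ‖circleMap q ρ b‖ ≤ 1) :
    ∀ θ ∈ Icc a b, circleMap q ρ θ ∈ closedBall (0:ℂ) 1 := by
  intro θ hθ
  rcases eq_or_lt_of_le hθ.1 with rfl | h1
  · rwa [mem_closedBall, dist_zero_right]
  rcases eq_or_lt_of_le hθ.2 with rfl | h2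
  · rwa [mem_closedBall, dist_zero_right]
  · exact ball_subset_closedBall (h θ ⟨h1, h2⟩)

lemma preconn_arc {q : ℂ} {ρ : ℝ} (hρ : 0 < ρ) (hρ1 : ρ < 1) :
    IsPreconnected ({w : ℂ | dist w q = ρ} ∩ closedBall 0 1) := by
  apply isPreconnected_of_forall_pair
  rintro w ⟨hw1, hw2⟩ w' ⟨hw1', hw2'⟩
  rw [mem_closedBall, dist_zero_right] at hw2 hw2'
  obtain ⟨a, b, hab, -, harc, hends⟩ := exists_arc' hρ hρ1 hw2 hw2' hw1 hw1'
  have hn : ‖circleMap q ρ a‖ ≤ 1 ∧ ‖circleMap q ρ b‖ ≤ 1 := by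
    rcases hends with ⟨e1, e2⟩ | ⟨e1, e2⟩ <;> rw [e1, e2]
    · exact ⟨hw2, hw2'⟩
    · exact ⟨hw2', hw2⟩
  refine ⟨circleMap q ρ '' Icc a b, ?_, ?_, ?_, isPreconnected_Icc.image _
    (continuous_circleMap q ρ).continuousOn⟩
  · rintro _ ⟨θ, hθ, rfl⟩
    refine ⟨?_, arc_closed harc hn.1 hn.2 θ hθ⟩
    rw [mem_ofPred_eq, dist_eq_norm, circleMap, add_sub_cancel_left, norm_mul,
      Complex.norm_exp_ofReal_mul_I, mul_one, Complex.norm_real, Real.norm_eq_abs, abs_of_pos hρ]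
  · rcases hends with ⟨e1, e2⟩ | ⟨e1, e2⟩
    · exact ⟨a, left_mem_Icc.2 hab, e1⟩
    · exact ⟨b, right_mem_Icc.2 hab, e2⟩
  · rcases hends with ⟨e1, e2⟩ | ⟨e1, e2⟩
    · exact ⟨b, right_mem_Icc.2 hab, e2⟩
    · exact ⟨a, left_mem_Icc.2 hab, e1⟩

/-- a point of the circle in the open disc -/
lemma exists_inner {q : ℂ} {ρ : ℝ} (hρ : 0 < ρ) (hρ1 : ρ < 1) (hq : ‖q‖ ≤ 1) :
    ∃ w : ℂ, dist w q = ρ ∧ ‖w‖ < 1 := by
  refine ⟨circleMap q ρ (Complex.arg q + π), ?_, ?_⟩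
  · rw [dist_eq_norm, circleMap, add_sub_cancel_left, norm_mul,
      Complex.norm_exp_ofReal_mul_I, mul_one, Complex.norm_real, Real.norm_eq_abs, abs_of_pos hρ]
  · have h := normSq_circle q ρ π
    rw [Real.cos_pi] at h
    have h2 : ‖circleMap q ρ (Complex.arg q + π)‖ ^ 2 < 1 := by
      rw [h]
      nlinarith [norm_nonneg q]
    rwa [sq_lt_one_iff_abs_lt_one, abs_of_nonneg (norm_nonneg _)] at h2

/-- a circle which is not in the open disc meets the unit circle -/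
lemma exists_unit {q : ℂ} {ρ : ℝ} (hρ : 0 < ρ) (hρ1 : ρ < 1) (hq : ‖q‖ ≤ 1) (h : 1 ≤ ‖q‖ + ρ) :
    ∃ w : ℂ, dist w q = ρ ∧ ‖w‖ = 1 := by
  have hc : ContinuousOn (fun t : ℝ => ‖q‖ ^ 2 + ρ ^ 2 + 2 * ‖q‖ * ρ * Real.cos t) (Icc 0 π) := by
    fun_prop
  have h1 : (1:ℝ) ∈ Icc (‖q‖ ^ 2 + ρ ^ 2 + 2 * ‖q‖ * ρ * Real.cos π)
      (‖q‖ ^ 2 + ρ ^ 2 + 2 * ‖q‖ * ρ * Real.cos 0) := by
    rw [Real.cos_pi, Real.cos_zero]
    constructor <;> nlinarith [norm_nonneg q]
  obtain ⟨t, ht, he⟩ := intermediate_value_Icc' Real.pi_pos.le hc h1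
  refine ⟨circleMap q ρ (Complex.arg q + t), ?_, ?_⟩
  · rw [dist_eq_norm, circleMap, add_sub_cancel_left, norm_mul,
      Complex.norm_exp_ofReal_mul_I, mul_one, Complex.norm_real, Real.norm_eq_abs, abs_of_pos hρ]
  · have h2 := normSq_circle q ρ t
    simp only at he
    rw [he] at h2
    have h3 := norm_nonneg (circleMap q ρ (Complex.arg q + t))
    nlinarith

section

variable {φ : ℂ → ℂ} {z q : ℂ} {ρ B L a b : ℝ}

/-- the image of a closed arc near which the truncation is not active -/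
lemma arc_le (hc : ContinuousOn φ (closedBall 0 1)) (hd : DifferentiableOn ℂ φ (ball 0 1))
    (hρ : 0 < ρ) (hL : 0 ≤ L)
    (hlen : len φ (ball 0 1 ∩ {w | dist (φ w) z < B}) q ρ ≤ ENNReal.ofReal L)
    (hba : b ≤ a + 2 * π) (harc : ∀ θ ∈ Ioo a b, circleMap q ρ θ ∈ ball (0:ℂ) 1)
    (hcl : ∀ θ ∈ Icc a b, circleMap q ρ θ ∈ closedBall (0:ℂ) 1) {a' b' : ℝ} (ha : a ≤ a')
    (hb : b' ≤ b) (hab : a' ≤ b')
    (hB : ∀ θ ∈ Ioo a' b', dist (φ (circleMap q ρ θ)) z < B) :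
    dist (φ (circleMap q ρ b')) (φ (circleMap q ρ a')) ≤ L := by
  rcases eq_or_lt_of_le hab with rfl | hab'
  · rwa [dist_self]
  have hOm : IsOpen (ball (0:ℂ) 1 ∩ {w | dist (φ w) z < B}) := by
    have hd1 : Continuous (fun x : ℂ => dist x z) := by fun_prop
    have hc1 : ContinuousOn (fun w => dist (φ w) z) (ball (0:ℂ) 1) :=
      hd1.comp_continuousOn (hc.mono ball_subset_closedBall)
    exact hc1.isOpen_inter_preimage isOpen_ball isOpen_Iio
  have hg : ContinuousOn (fun θ => φ (circleMap q ρ θ)) (Icc a b) :=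
    hc.comp (continuous_circleMap q ρ).continuousOn hcl
  have key : ∀ᶠ e : ℝ in 𝓝[>] 0,
      dist (φ (circleMap q ρ (b' - e))) (φ (circleMap q ρ (a' + e))) ≤ L := by
    have h1 : Ioo (0:ℝ) ((b' - a') / 2) ∈ 𝓝[>] (0:ℝ) := Ioo_mem_nhdsGT (by linarith)
    filter_upwards [h1] with e he
    have h2 := edist_arc hOm (hd.mono inter_subset_left) q hρ.le (a := a' + e) (b := b' - e)
      (by linarith [he.2]) (by linarith [he.1]) (by
        intro θ hθ
        have h3 : θ ∈ Ioo a' b' := ⟨by linarith [hθ.1, he.1], by linarith [hθ.2, he.1]⟩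
        exact ⟨harc θ ⟨by linarith [h3.1], by linarith [h3.2]⟩, hB θ h3⟩)
    have h3 := h2.trans hlen
    rw [← ofReal_norm, ENNReal.ofReal_le_ofReal_iff hL, ← dist_eq_norm] at h3
    exact h3
  have t1 : Tendsto (fun e : ℝ => φ (circleMap q ρ (b' - e))) (𝓝[>] 0)
      (𝓝 (φ (circleMap q ρ b'))) := by
    have h1 := (hg b' ⟨by linarith, hb⟩).tendsto
    have h2 : Tendsto (fun e : ℝ => b' - e) (𝓝[>] 0) (𝓝[Icc a b] b') := by
      apply tendsto_nhdsWithin_iff.2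
      constructor
      · have : Tendsto (fun e : ℝ => b' - e) (𝓝 0) (𝓝 (b' - 0)) := by
          apply Continuous.tendsto; fun_prop
        rw [sub_zero] at this
        exact this.mono_left nhdsWithin_le_nhds
      · have h1 : Ioo (0:ℝ) (b' - a') ∈ 𝓝[>] (0:ℝ) := Ioo_mem_nhdsGT (by linarith)
        filter_upwards [h1] with e he
        exact ⟨by linarith [he.2], by linarith [he.1]⟩
    exact h1.comp h2
  have t2 : Tendsto (fun e : ℝ => φ (circleMap q ρ (a' + e))) (𝓝[>] 0)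
      (𝓝 (φ (circleMap q ρ a'))) := by
    have h1 := (hg a' ⟨ha, by linarith⟩).tendsto
    have h2 : Tendsto (fun e : ℝ => a' + e) (𝓝[>] 0) (𝓝[Icc a b] a') := by
      apply tendsto_nhdsWithin_iff.2
      constructor
      · have : Tendsto (fun e : ℝ => a' + e) (𝓝 0) (𝓝 (a' + 0)) := by
          apply Continuous.tendsto; fun_prop
        rw [add_zero] at this
        exact this.mono_left nhdsWithin_le_nhds
      · have h1 : Ioo (0:ℝ) (b' - a') ∈ 𝓝[>] (0:ℝ) := Ioo_mem_nhdsGT (by linarith)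
        filter_upwards [h1] with e he
        exact ⟨by linarith [he.1], by linarith [he.2]⟩
    exact h1.comp h2
  exact le_of_tendsto (t1.dist t2) key

lemma arc_short1 (hc : ContinuousOn φ (closedBall 0 1)) (hd : DifferentiableOn ℂ φ (ball 0 1))
    (hρ : 0 < ρ) (hL : 0 ≤ L)
    (hlen : len φ (ball 0 1 ∩ {w | dist (φ w) z < B}) q ρ ≤ ENNReal.ofReal L)
    (hab : a ≤ b) (hba : b ≤ a + 2 * π) (harc : ∀ θ ∈ Ioo a b, circleMap q ρ θ ∈ ball (0:ℂ) 1)
    (hcl : ∀ θ ∈ Icc a b, circleMap q ρ θ ∈ closedBall (0:ℂ) 1)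
    (h1 : dist (φ (circleMap q ρ a)) z + L < B) :
    dist (φ (circleMap q ρ b)) (φ (circleMap q ρ a)) ≤ L := by
  have hg : ContinuousOn (fun θ => φ (circleMap q ρ θ)) (Icc a b) :=
    hc.comp (continuous_circleMap q ρ).continuousOn hcl
  have hd1 : Continuous (fun x : ℂ => dist x z) := by fun_prop
  have hgd : ContinuousOn (fun θ => dist (φ (circleMap q ρ θ)) z) (Icc a b) :=
    hd1.comp_continuousOn hg
  set F : Set ℝ := Icc a b ∩ (fun θ => dist (φ (circleMap q ρ θ)) z) ⁻¹' Ici B with hF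
  have hFc : IsClosed F := hgd.preimage_isClosed_of_isClosed isClosed_Icc isClosed_Ici
  rcases F.eq_empty_or_nonempty with he | hne
  · refine arc_le hc hd hρ hL hlen hba harc hcl le_rfl le_rfl hab (fun θ hθ => ?_)
    by_contra hcon
    have : θ ∈ F := ⟨Ioo_subset_Icc_self hθ, not_lt.1 hcon⟩
    rw [he] at this
    exact this
  · exfalso
    have hbdd : BddBelow F := ⟨a, fun θ hθ => hθ.1.1⟩
    have hm : sInf F ∈ F := hFc.csInf_mem hne hbdd
    have h2 := arc_le hc hd hρ hL hlen hba harc hcl (a' := a) (b' := sInf F) le_rfl hm.1.2 hm.1.1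
      (fun θ hθ => by
        by_contra hcon
        have : θ ∈ F := ⟨⟨hθ.1.le, hθ.2.le.trans hm.1.2⟩, not_lt.1 hcon⟩
        exact absurd (csInf_le hbdd this) (not_le.2 hθ.2))
    have h3 : B ≤ dist (φ (circleMap q ρ (sInf F))) z := hm.2
    have h4 := dist_triangle (φ (circleMap q ρ (sInf F))) (φ (circleMap q ρ a)) z
    linarith

lemma arc_short2 (hc : ContinuousOn φ (closedBall 0 1)) (hd : DifferentiableOn ℂ φ (ball 0 1))
    (hρ : 0 < ρ) (hL : 0 ≤ L)
    (hlen : len φ (ball 0 1 ∩ {w | dist (φ w) z < B}) q ρ ≤ ENNReal.ofReal L)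
    (hab : a ≤ b) (hba : b ≤ a + 2 * π) (harc : ∀ θ ∈ Ioo a b, circleMap q ρ θ ∈ ball (0:ℂ) 1)
    (hcl : ∀ θ ∈ Icc a b, circleMap q ρ θ ∈ closedBall (0:ℂ) 1)
    (h1 : dist (φ (circleMap q ρ b)) z + L < B) :
    dist (φ (circleMap q ρ b)) (φ (circleMap q ρ a)) ≤ L := by
  have hg : ContinuousOn (fun θ => φ (circleMap q ρ θ)) (Icc a b) :=
    hc.comp (continuous_circleMap q ρ).continuousOn hcl
  have hd1 : Continuous (fun x : ℂ => dist x z) := by fun_prop
  have hgd : ContinuousOn (fun θ => dist (φ (circleMap q ρ θ)) z) (Icc a b) :=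
    hd1.comp_continuousOn hg
  set F : Set ℝ := Icc a b ∩ (fun θ => dist (φ (circleMap q ρ θ)) z) ⁻¹' Ici B with hF
  have hFc : IsClosed F := hgd.preimage_isClosed_of_isClosed isClosed_Icc isClosed_Ici
  rcases F.eq_empty_or_nonempty with he | hne
  · refine arc_le hc hd hρ hL hlen hba harc hcl le_rfl le_rfl hab (fun θ hθ => ?_)
    by_contra hcon
    have : θ ∈ F := ⟨Ioo_subset_Icc_self hθ, not_lt.1 hcon⟩
    rw [he] at this
    exact this
  · exfalso
    have hbdd : BddAbove F := ⟨b, fun θ hθ => hθ.1.2⟩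
    have hm : sSup F ∈ F := hFc.csSup_mem hne hbdd
    have h2 := arc_le hc hd hρ hL hlen hba harc hcl (a' := sSup F) (b' := b) hm.1.1 le_rfl hm.1.2
      (fun θ hθ => by
        by_contra hcon
        have : θ ∈ F := ⟨⟨hm.1.1.trans hθ.1.le, hθ.2.le⟩, not_lt.1 hcon⟩
        exact absurd (le_csSup hbdd this) (not_le.2 hθ.1))
    have h3 : B ≤ dist (φ (circleMap q ρ (sSup F))) z := hm.2
    have h4 := dist_triangle_left (φ (circleMap q ρ (sSup F))) z (φ (circleMap q ρ b))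
    linarith

/-- **Short images**: if the truncated length of the image of the circle is at most `L` and the image
contains a point well inside the truncation, then the image is in the ball of radius `L` around it. -/
theorem short (hc : ContinuousOn φ (closedBall 0 1)) (hd : DifferentiableOn ℂ φ (ball 0 1))
    (hρ : 0 < ρ) (hρ1 : ρ < 1) (hL : 0 ≤ L)
    (hlen : len φ (ball 0 1 ∩ {w | dist (φ w) z < B}) q ρ ≤ ENNReal.ofReal L)
    {w w' : ℂ} (hw : ‖w‖ ≤ 1) (hw' : ‖w'‖ ≤ 1) (h1 : dist w q = ρ) (h2 : dist w' q = ρ)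
    (hB : dist (φ w) z + L < B) : dist (φ w') (φ w) ≤ L := by
  obtain ⟨a, b, hab, hba, harc, hends⟩ := exists_arc' hρ hρ1 hw hw' h1 h2
  rcases hends with ⟨e1, e2⟩ | ⟨e1, e2⟩
  · have hcl := arc_closed harc (by rw [e1]; exact hw) (by rw [e2]; exact hw')
    have := arc_short1 hc hd hρ hL hlen hab hba harc hcl (by rw [e1]; exact hB)
    rwa [e1, e2] at this
  · have hcl := arc_closed harc (by rw [e1]; exact hw') (by rw [e2]; exact hw)
    have := arc_short2 hc hd hρ hL hlen hab hba harc hcl (by rw [e2]; exact hB)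
    rw [e1, e2] at this
    rwa [dist_comm]

end

end Pool.Agent.H69.UC
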