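import Mathlib
import Pool.Agent.H69.UC.G2
import Pool.Agent.H69.UC.Sep
import Pool.Agent.H69.UC.Short

set_option autoImplicit false
open Set Filter Topology Metric MeasureTheory
open scoped Real ENNReal

/-!
# A2: regularity up to the boundary, away from the marks
-/

namespace Pool.Agent.H69.UC

open Pool.Agent.H7.UC Pool.Agent.H75.Perc Pool.Agent.H96.M7

lemma isBounded_reg (U : Finset Fc) : Bornology.IsBounded (reg U) := by
  have h1 : reg U ⊆ ⋃ f ∈ U, closedBall (ctr f) 2 := by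
    intro y hy
    obtain ⟨f, hf, hyf⟩ := mem_closure_reg.1 (subset_closure hy)
    rw [mem_iUnion₂]
    exact ⟨f, hf, dist_ctr_le hyf⟩
  refine Bornology.IsBounded.subset ?_ h1
  exact (Bornology.isBounded_biUnion_finset _).2 (fun f _ => isBounded_closedBall)

/-- rays leave the domain -/
lemma exists_far (U : Finset Fc) (x : ℂ) {u : ℂ} (hu : u ≠ 0) :
    ∃ T : ℝ, 0 ≤ T ∧ x + T * u ∉ reg U := by
  obtain ⟨r, hr⟩ := (isBounded_reg U).subset_closedBall x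
  have hu' : 0 < ‖u‖ := norm_pos_iff.2 hu
  refine ⟨(|r| + 1) / ‖u‖, by positivity, fun h => ?_⟩
  have h1 := hr h
  rw [mem_closedBall, dist_eq_norm, add_sub_cancel_left, norm_mul, Complex.norm_real,
    Real.norm_eq_abs, abs_of_nonneg (by positivity), div_mul_cancel₀ _ hu'.ne'] at h1
  linarith [le_abs_self r]

/-- a nearest point of the complement -/
lemma exists_nearest (U : Finset Fc) (x : ℂ) : ∃ b, b ∉ reg U ∧ ball x (dist x b) ⊆ reg U := by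
  have hc : IsClosed (reg U)ᶜ := (isOpen_reg U).isClosed_compl
  have hne : ((reg U)ᶜ).Nonempty := by
    obtain ⟨T, -, h⟩ := exists_far U x one_ne_zero
    exact ⟨_, h⟩
  obtain ⟨b, hb, he⟩ := hc.exists_infDist_eq_dist hne x
  refine ⟨b, hb, fun w hw => ?_⟩
  by_contra hcon
  have h1 := infDist_le_dist_of_mem (x := x) (s := (reg U)ᶜ) (y := w) hcon
  rw [he] at h1
  rw [mem_ball, dist_comm] at hw
  linarith

lemma seg_eq {x u : ℂ} {t : ℝ} (ht : 0 ≤ t) {y : ℂ} (hy : y ∈ segment ℝ x (x + t * u)) :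
    ∃ s ∈ Icc 0 t, y = x + s * u := by
  rw [segment_eq_image'] at hy
  obtain ⟨r, hr, rfl⟩ := hy
  refine ⟨r * t, ⟨by have := hr.1; positivity, by nlinarith [hr.2]⟩, ?_⟩
  rw [add_sub_cancel_left]
  simp only [Complex.real_smul]
  push_cast
  ring

/-- a power is small near `0` -/
lemma exists_theta {ε C a : ℝ} (hε : 0 < ε) (ha : 0 < a) :
    ∃ θ : ℝ, 0 < θ ∧ θ ≤ 1 ∧ ∀ x, 0 ≤ x → x ≤ θ → C * x ^ a ≤ ε := by
  have h1 : 0 < ε / (|C| + 1) := by positivity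
  refine ⟨min 1 ((ε / (|C| + 1)) ^ (1 / a)), by positivity, min_le_left _ _, fun x hx0 hx => ?_⟩
  have h2 : x ≤ (ε / (|C| + 1)) ^ (1 / a) := hx.trans (min_le_right _ _)
  have h3 : x ^ a ≤ ε / (|C| + 1) := by
    calc x ^ a ≤ ((ε / (|C| + 1)) ^ (1 / a)) ^ a := Real.rpow_le_rpow hx0 h2 ha.le
      _ = ε / (|C| + 1) := by
        rw [← Real.rpow_mul h1.le, one_div_mul_cancel ha.ne', Real.rpow_one]
  have h4 : 0 ≤ x ^ a := Real.rpow_nonneg hx0 a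
  calc C * x ^ a ≤ |C| * x ^ a := by
        have := le_abs_self C
        nlinarith
    _ ≤ (|C| + 1) * (ε / (|C| + 1)) := by
        have := abs_nonneg C
        nlinarith
    _ = ε := by field_simp

/-- the core of the argument: a connected set `Γ` which contains the image of a circle around `q` and
a frontier point -/
theorem core (h6c : D6c) {U : Finset Fc} {M : Marks U 3} {φ : ℂ → ℂ} {z q q' : ℂ} {ρ η κ : ℝ}
    {f0 : Fc} {z0 : Vx} {p : Fin 3 → ℂ} {w0 w1 : ℂ} {Γ : Set ℂ} {W : Set Vx} (hdom : IsDom U)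
    (hφ : DiscChart (reg U) φ) (h0 : φ 0 = z) (hf0 : f0 ∈ U) (hzf : z ∈ cell f0)
    (hz0 : IsVx f0 z0) (hmark : ∀ j, ‖p j‖ = 1 ∧ φ (p j) = pv (M.u j))
    (hκ : ∀ j, κ ≤ ‖q - p j‖) (h6 : 6 * η < κ) (h4 : 4 * η < 1) (hρη : ρ ≤ η) (hρ0 : 0 < ρ)
    (hw0 : ‖w0‖ ≤ 1) (hw0q : dist w0 q = ρ) (hw1 : ‖w1‖ = 1)
    (hw1Γ : φ w1 ∈ Γ) (hΓc : IsPreconnected Γ) (hΓs : Γ ⊆ closure (reg U))
    (hΓ : ∀ w, dist w q = ρ → ‖w‖ ≤ 1 → φ w ∈ Γ) (hSW : Cov U Γ ⊆ W)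
    (hE : ∀ T : Set Vx, Cov U Γ ⊆ T → T ⊆ W → ConnSet U T →
      ∀ a ∈ closedBall (0:ℂ) 1 ∩ φ ⁻¹' Hat U T, ∀ b ∈ closedBall (0:ℂ) 1 ∩ φ ⁻¹' Hat U T,
      dist a b ≤ η)
    {v v' : Vx} {k k' : Fin 3} (hv : inE U (ed v k)) (hv' : inE U (ed v' k')) (hq : ‖q‖ ≤ 1)
    (hq' : ‖q'‖ ≤ 1) (hφq : φ q = mid v k) (hφq' : φ q' = mid v' k') (hqq' : dist q' q < ρ)
    {c c' : Ed → ZMod 2} (hc : IsRef M v c) (hc' : IsRef M v' c') (j : Fin 3) :
    |X M c v k j - X M c' v' k' j| ≤ Pr U (ArmS (Cov U Γ) W) := by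
  have hw1b : φ w1 ∉ reg U := by
    intro h
    rw [← hφ.img] at h
    obtain ⟨e, he, hee⟩ := h
    have h1 := hφ.inj (ball_subset_closedBall he)
      (by rw [mem_closedBall, dist_zero_right]; exact hw1.le) hee
    rw [mem_ball, dist_zero_right, h1] at he
    linarith
  have hconn := connSet_Cov hΓc hΓs
  have hmo : ∀ T : Set Vx, Cov U Γ ⊆ T → T ⊆ W → ConnSet U T →
      1 - 2 * η ≤ ‖q‖ ∧ z0 ∉ T ∧ ∀ j, M.u j ∈ Out U T z0 := by
    intro T h1 h2 h3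
    have h4' : Γ ⊆ Hat U T := (subset_Hat_Cov hΓs).trans (Hat_mono h1)
    exact marks_out hφ h0 hf0 hzf hz0 hmark hκ h6 h4 hw0 hw0q hρη (h4' (hΓ w0 hw0q hw0)) hw1
      (h4' hw1Γ) (hE T h1 h2 h3)
  obtain ⟨hq1, hz0S, -⟩ := hmo _ Subset.rfl hSW hconn
  have hρq : ρ < ‖q‖ := by linarith
  have hqq : dist q q < ρ := by rw [dist_self]; exact hρ0
  refine h6c U M hdom (Cov U Γ) W z0 ?_ hSW hconn (exists_bd_vx hw1Γ (hΓs hw1Γ) hw1b)
    (fun T h1 h2 h3 => (hmo T h1 h2 h3).2) v v' k k' hv hv' ?_ ?_ ?_ ?_ c c' hc hc' j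
  · obtain ⟨l, rfl⟩ := hz0
    exact ⟨l, hf0⟩
  · exact not_out hφ h0 hf0 hzf hz0 hΓ Subset.rfl hz0S hρq hv hq hφq hqq
  · refine not_out hφ h0 hf0 hzf hz0 hΓ Subset.rfl hz0S hρq (k := k) ?_ hq ?_ hqq
    · rw [ed_nb]; exact hv
    · rw [mid_nb]; exact hφq
  · exact not_out hφ h0 hf0 hzf hz0 hΓ Subset.rfl hz0S hρq hv' hq' hφq' hqq'
  · refine not_out hφ h0 hf0 hzf hz0 hΓ Subset.rfl hz0S hρq (k := k') ?_ hq' ?_ hqq'
    · rw [ed_nb]; exact hv'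
    · rw [mid_nb]; exact hφq'

/-- the short circle -/
lemma exists_circle {φ : ℂ → ℂ} {z q : ℂ} {δ l B : ℝ} (hc : ContinuousOn φ (closedBall 0 1))
    (hd : DifferentiableOn ℂ φ (ball 0 1)) (hi : InjOn φ (closedBall 0 1)) (hδ : 0 < δ)
    (hδ1 : δ < √δ) (hl : 0 < l) (hB : 0 < B)
    (hlog : 4 * π * (π * B ^ 2) / l ^ 2 ≤ Real.log (√δ / δ)) :
    ∃ ρ ∈ Ioo δ (√δ), len φ (ball 0 1 ∩ {w | dist (φ w) z < B}) q ρ ≤ ENNReal.ofReal l := by
  have hOm : IsOpen (ball (0:ℂ) 1 ∩ {w | dist (φ w) z < B}) := by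
    have hd1 : Continuous (fun x : ℂ => dist x z) := by fun_prop
    have hc1 : ContinuousOn (fun w => dist (φ w) z) (ball (0:ℂ) 1) :=
      hd1.comp_continuousOn (hc.mono ball_subset_closedBall)
    exact hc1.isOpen_inter_preimage isOpen_ball isOpen_Iio
  have hvol : volume (φ '' (ball (0:ℂ) 1 ∩ {w | dist (φ w) z < B})) ≤
      ENNReal.ofReal (π * B ^ 2) := by
    have h1 : φ '' (ball (0:ℂ) 1 ∩ {w | dist (φ w) z < B}) ⊆ ball z B := by
      rintro _ ⟨w, hw, rfl⟩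
      exact hw.2
    refine (measure_mono h1).trans ?_
    rw [Complex.volume_ball, ENNReal.ofReal_mul Real.pi_pos.le, ENNReal.ofReal_pow hB.le, mul_comm,
      ← NNReal.coe_real_pi, ENNReal.ofReal_coe_nnreal]
  have hpos : 0 < 4 * π * (π * B ^ 2) / l ^ 2 := by positivity
  have hlog0 : 0 < Real.log (√δ / δ) := hpos.trans_le hlog
  obtain ⟨ρ, hρ, hlen⟩ := exists_short hOm (hd.mono inter_subset_left)
    (hi.mono (inter_subset_left.trans ball_subset_closedBall)) (A := π * B ^ 2) (by positivity)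
    hvol q hδ hδ1
  refine ⟨ρ, hρ, ?_⟩
  have h2 : 4 * π * (π * B ^ 2) / Real.log (√δ / δ) ≤ l ^ 2 := by
    rw [div_le_iff₀ (by positivity)] at hlog
    rw [div_le_iff₀ hlog0]
    linarith
  have h3 := hlen.trans (ENNReal.ofReal_le_ofReal h2)
  rw [ENNReal.ofReal_pow hl.le] at h3
  exact (ENNReal.pow_le_pow_left_iff (by norm_num)).1 h3

lemma armS_near {U : Finset Fc} {S : Set Vx} {x : ℂ} {r R : ℝ} (hS : ∀ v ∈ S, dist (pv v) x ≤ r) :
    Pr U (ArmS S {w | dist (pv w) x ≤ R}) ≤ Pr U (Arm x (r + 2) (R - 2)) := by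
  apply Pr_mono
  rintro ω - ⟨f, g, hf, ⟨v, hv, k, hk⟩, ⟨w, hw, k', hk'⟩, hfg⟩
  refine ⟨f, g, hf, ?_, ?_, hfg⟩
  · have h1 := hS v hv
    have h2 := dist_ctr_le (pv_mem_cell v k)
    rw [hk] at h2
    rw [← dist_eq_norm]
    have h3 := dist_triangle_left (ctr f) x (pv v)
    linarith
  · rw [mem_ofPred_eq, not_le] at hw
    have h2 := dist_ctr_le (pv_mem_cell w k')
    rw [hk'] at h2
    rw [← dist_eq_norm]
    have h3 := dist_triangle (pv w) (ctr g) x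
    linarith

lemma adjF_symm {f g : Fc} (h : adjF f g) : adjF g f := by
  obtain ⟨e, h | h⟩ := h
  · exact ⟨e, Or.inr h⟩
  · exact ⟨e, Or.inl h⟩

lemma armS_far {U : Finset Fc} {S : Set Vx} {x : ℂ} {r R : ℝ} (hS : ∀ v ∈ S, R ≤ dist (pv v) x) :
    Pr U (ArmS S {w | r ≤ dist (pv w) x}) ≤ Pr U (Arm x (r + 2) (R - 2)) := by
  apply Pr_mono
  rintro ω - ⟨f, g, hf, ⟨v, hv, k, hk⟩, ⟨w, hw, k', hk'⟩, hfg⟩
  have key : g ∈ ω ∧ Relation.ReflTransGen (fun a b => b ∈ ω ∧ adjF a b) g f := by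
    clear hk hk' hw
    induction hfg with
    | refl => exact ⟨hf, Relation.ReflTransGen.refl⟩
    | @tail b c h1 h2 ih =>
      exact ⟨h2.1, Relation.ReflTransGen.head ⟨ih.1, adjF_symm h2.2⟩ ih.2⟩
  refine ⟨g, f, key.1, ?_, ?_, key.2⟩
  · rw [mem_ofPred_eq, not_le] at hw
    have h2 := dist_ctr_le (pv_mem_cell w k')
    rw [hk'] at h2
    rw [← dist_eq_norm]
    have h3 := dist_triangle_left (ctr g) x (pv w)
    linarith
  · have h1 := hS v hv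
    have h2 := dist_ctr_le (pv_mem_cell v k)
    rw [hk] at h2
    rw [← dist_eq_norm]
    have h3 := dist_triangle (pv v) (ctr f) x
    linarith

end Pool.Agent.H69.UC
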