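import Mathlib
import Pool.Agent.H69.UC.A2

set_option autoImplicit false
open Set Filter Topology Metric MeasureTheory
open scoped Real ENNReal

/-!
# A2: regularity up to the boundary, away from the marks (main theorem)
-/

namespace Pool.Agent.H69.UC

open Pool.Agent.H7.UC Pool.Agent.H75.Perc Pool.Agent.H96.M7

lemma chart_unit {Dom : Set ℂ} {φ : ℂ → ℂ} (hφ : DiscChart Dom φ) {w : ℂ} (hw : ‖w‖ ≤ 1)
    (h : φ w ∉ Dom) : ‖w‖ = 1 := by
  by_contra hcon
  apply h
  rw [← hφ.img]
  refine ⟨w, ?_, rfl⟩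
  rw [mem_ball, dist_zero_right]
  exact lt_of_le_of_ne hw hcon

lemma chart_not_mem {Dom : Set ℂ} {φ : ℂ → ℂ} (hφ : DiscChart Dom φ) {w : ℂ} (hw : ‖w‖ = 1) :
    φ w ∉ Dom := by
  intro h
  rw [← hφ.img] at h
  obtain ⟨e, he, hee⟩ := h
  have h1 := hφ.inj (ball_subset_closedBall he)
    (by rw [mem_closedBall, dist_zero_right]; exact hw.le) hee
  rw [mem_ball, dist_zero_right, h1] at he
  linarith

/-- **A2.** -/
theorem a2 (h5 : D5) (h6b : D6b) (h6c : D6c) : A2 := by
  intro ε hε κ hκ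
  obtain ⟨C, a, ha, h5⟩ := h5
  obtain ⟨θ, hθ0, hθ1, hθ⟩ := exists_theta (C := C) hε ha
  have harm : ∀ (E : Finset Fc) (x : ℂ) (r R : ℝ), 1 ≤ r → 0 < R → r ≤ θ * R →
      Pr E (Arm x r R) ≤ ε := by
    intro E x r R hr hR hrR
    have h1 : r ≤ R := by nlinarith
    refine (h5 E x r R hr h1).trans (hθ _ (by positivity) ?_)
    rw [div_le_iff₀ hR]
    exact hrR
  obtain ⟨η, hη, h6, h4⟩ : ∃ η : ℝ, 0 < η ∧ 6 * η < κ ∧ 4 * η < 1 := by
    have h1 := min_le_left κ 1
    have h2 := min_le_right κ 1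
    have h3 : 0 < min κ 1 := lt_min hκ one_pos
    exact ⟨min κ 1 / 16, by positivity, by linarith, by linarith⟩
  obtain ⟨δ1, hδ1, hδ1', hG1⟩ : ∃ δ1 : ℝ, 0 < δ1 ∧ δ1 ≤ 1 ∧ ∀ (Dom : Set ℂ) (φ : ℂ → ℂ) (z : ℂ)
      (R : ℝ), DiscChart Dom φ → φ 0 = z → 0 < R → ball z R ⊆ Dom → ∀ S ⊆ closedBall (0:ℂ) 1,
      IsPreconnected S → (∀ a ∈ S, ∀ b ∈ S, dist (φ a) (φ b) ≤ δ1 * R) →
      ∀ a ∈ S, ∀ b ∈ S, dist a b ≤ η := by
    obtain ⟨δ0, hδ0, h⟩ := G1 hη
    refine ⟨min δ0 1, lt_min hδ0 one_pos, min_le_right _ _, ?_⟩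
    intro Dom φ z R h1 h2 h3 h4 S h5 h6 h7
    refine h Dom φ z R h1 h2 h3 h4 S h5 h6 (fun a ha b hb => (h7 a ha b hb).trans ?_)
    exact mul_le_mul_of_nonneg_right (min_le_left _ _) h3.le
  obtain ⟨A1, hA1, hG1'⟩ := G1' hη
  obtain ⟨L, hL⟩ : ∃ L : ℝ, L = θ * δ1 / 24 := ⟨_, rfl⟩
  have hL0 : 0 < L := by rw [hL]; positivity
  obtain ⟨l, hl⟩ : ∃ l : ℝ, l = θ * L / 56 := ⟨_, rfl⟩
  have hl0 : 0 < l := by rw [hl]; positivity
  obtain ⟨A, hA⟩ : ∃ A : ℝ, A = 4 * (A1 + 1) / θ := ⟨_, rfl⟩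
  have hAθ : θ * A = 4 * (A1 + 1) := by rw [hA]; field_simp
  have hA0 : 4 * (A1 + 1) ≤ A := by
    have : 0 < A := by rw [hA]; positivity
    nlinarith
  have hL1 : L ≤ 1 / 24 := by rw [hL]; nlinarith
  have hl1 : l ≤ L / 56 := by rw [hl]; nlinarith
  -- the parameter `δ`
  obtain ⟨Λ, hΛ⟩ : ∃ Λ : ℝ, Λ = 4 * π * (π * (2 * A) ^ 2) / l ^ 2 := ⟨_, rfl⟩
  have hΛ0 : 0 < Λ := by
    have : 0 < A := by linarith
    rw [hΛ]; positivity
  obtain ⟨s, hs0, hsη, hsΛ⟩ : ∃ s : ℝ, 0 < s ∧ s ≤ η ∧ s ≤ Real.exp (-Λ) :=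
    ⟨min η (Real.exp (-Λ)), lt_min hη (Real.exp_pos _), min_le_left _ _, min_le_right _ _⟩
  have hs1 : s < 1 := by linarith
  have hsq : √(s ^ 2) = s := Real.sqrt_sq hs0.le
  have hlogΛ : Λ ≤ Real.log (s / s ^ 2) := by
    have h1 : s / s ^ 2 = s⁻¹ := by field_simp
    rw [h1, Real.log_inv]
    have h2 := Real.log_le_log hs0 hsΛ
    rw [Real.log_exp] at h2
    linarith
  refine ⟨s ^ 2, by positivity, 5 + 48 / (θ * δ1) + 240 / (θ * L) + 16 / δ1, ?_⟩
  intro U M z R' φ p hsit hKR v k v' k' q q' hE hE' hq hq' hφq hφq' hqq' hqp c c' hc hc' j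
  -- the exact radius
  obtain ⟨b, hb, hball⟩ := exists_nearest U z
  have hRb : R' ≤ dist z b := by
    by_contra hcon
    rw [not_le] at hcon
    exact hb (hsit.inner (by rw [mem_ball, dist_comm]; exact hcon))
  obtain ⟨R, hR⟩ : ∃ R, R = dist z b := ⟨_, rfl⟩
  rw [← hR] at hRb hball
  have p1 : 0 < 48 / (θ * δ1) := by positivity
  have p2 : 0 < 240 / (θ * L) := by positivity
  have p3 : 0 < 16 / δ1 := by positivity
  have hR5 : 5 ≤ R := by linarith
  have hR0 : 0 < R := by linarith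
  have hR1 : 48 ≤ θ * δ1 * R := by
    have h1 : 48 / (θ * δ1) ≤ R := by linarith
    rw [div_le_iff₀ (by positivity)] at h1
    linarith
  have hR2 : 240 ≤ θ * L * R := by
    have h1 : 240 / (θ * L) ≤ R := by linarith
    rw [div_le_iff₀ (by positivity)] at h1
    linarith
  have hR3 : 16 ≤ δ1 * R := by
    have h1 : 16 / δ1 ≤ R := by linarith
    rw [div_le_iff₀ (by positivity)] at h1
    linarith
  clear hKR p1 p2 p3
  have hφ := hsit.chart
  have h0 := hsit.zero
  have hzU : z ∈ reg U := hball (mem_ball_self hR0)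
  obtain ⟨f0, hf0, hzf⟩ := mem_closure_reg.1 (subset_closure hzU)
  obtain ⟨z0, hz0⟩ : ∃ v, IsVx f0 v := by
    obtain ⟨i, j⟩ := f0
    exact ⟨(i, j, false), 1, rfl⟩
  -- the circle
  have hB : 0 < 2 * A * R := by
    have : 0 < A := by linarith
    positivity
  obtain ⟨ρ, hρ, hlen⟩ := exists_circle (q := q) (z := z) (δ := s ^ 2) (l := l * R)
    (B := 2 * A * R) hφ.cont hφ.diff hφ.inj (by positivity) (by rw [hsq]; nlinarith)
    (by positivity) hB (by
      rw [hsq]
      refine le_trans (le_of_eq ?_) hlogΛ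
      rw [hΛ]
      field_simp)
  rw [hsq] at hρ
  have hρ0 : 0 < ρ := lt_trans (by positivity) hρ.1
  have hρη : ρ ≤ η := hρ.2.le.trans hsη
  have hρ1 : ρ < 1 := by linarith
  have hqq : dist q' q < ρ := by
    rw [dist_comm, dist_eq_norm]
    exact hqq'.trans_lt hρ.1
  obtain ⟨w0, hw0q, hw0⟩ := exists_inner hρ0 hρ1 hq
  have hx0 : φ w0 ∈ reg U := by
    rw [← hφ.img]
    exact ⟨w0, by rwa [mem_ball, dist_zero_right], rfl⟩
  set Γ1 : Set ℂ := φ '' ({w : ℂ | dist w q = ρ} ∩ closedBall 0 1) with hΓ1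
  have hΓ1c : IsPreconnected Γ1 :=
    (preconn_arc hρ0 hρ1).image φ (hφ.cont.mono inter_subset_right)
  have hΓ1s : Γ1 ⊆ closure (reg U) := by
    rw [← hφ.imgc]
    exact image_mono inter_subset_right
  have hΓ1m : ∀ w, dist w q = ρ → ‖w‖ ≤ 1 → φ w ∈ Γ1 := fun w h1 h2 =>
    ⟨w, ⟨h1, by rwa [mem_closedBall, dist_zero_right]⟩, rfl⟩
  have hcl : φ '' closedBall 0 1 = closure (reg U) := hφ.imgc
  by_cases hfar : ∀ w, dist w q = ρ → ‖w‖ ≤ 1 → A * R ≤ dist (φ w) z
  · -- far from the centre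
    have hx0z := hfar w0 hw0q hw0.le
    have hne : φ w0 - z ≠ 0 := by
      intro h
      rw [sub_eq_zero] at h
      rw [h, dist_self] at hx0z
      nlinarith
    obtain ⟨T, hT0, hT⟩ := exists_far U (φ w0) hne
    obtain ⟨t, ht, hout, hseg⟩ := exists_exit (subset_closure hx0) hT0 hT
    obtain ⟨w1, hw1, hw1y⟩ : ∃ w1, ‖w1‖ ≤ 1 ∧ φ w1 = φ w0 + t * (φ w0 - z) := by
      have h1 := hseg t ⟨ht.1, le_rfl⟩
      rw [← hcl] at h1
      obtain ⟨w, hw, hw'⟩ := h1
      exact ⟨w, by rwa [mem_closedBall, dist_zero_right] at hw, hw'⟩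
    have hw1n : ‖w1‖ = 1 := chart_unit hφ hw1 (by rw [hw1y]; exact hout)
    set Γ : Set ℂ := Γ1 ∪ segment ℝ (φ w0) (φ w0 + t * (φ w0 - z)) with hΓ
    have hΓc : IsPreconnected Γ := IsPreconnected.union (φ w0) (hΓ1m w0 hw0q hw0.le)
      (left_mem_segment _ _ _) hΓ1c (convex_segment _ _).isPreconnected
    have hΓs : Γ ⊆ closure (reg U) := by
      rintro y (hy | hy)
      · exact hΓ1s hy
      · obtain ⟨r, hr, rfl⟩ := seg_eq ht.1 hy
        exact hseg r hr
    have hΓd : ∀ y ∈ Γ, A * R ≤ dist y z := by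
      rintro y (⟨w, ⟨h1, h2⟩, rfl⟩ | hy)
      · rw [mem_closedBall, dist_zero_right] at h2
        exact hfar w h1 h2
      · obtain ⟨r, hr, rfl⟩ := seg_eq ht.1 hy
        have e : φ w0 + r * (φ w0 - z) - z = ((1 + r : ℝ) : ℂ) * (φ w0 - z) := by
          push_cast; ring
        rw [dist_eq_norm, e, norm_mul, Complex.norm_real, Real.norm_eq_abs,
          abs_of_nonneg (by linarith [hr.1]), ← dist_eq_norm]
        have := hr.1
        have h3 : 0 ≤ dist (φ w0) z := dist_nonneg
        nlinarith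
    have hS : ∀ v ∈ Cov U Γ, A * R - 4 ≤ dist (pv v) z := by
      rintro v ⟨f, hf, hfv, y, hy, hyΓ⟩
      have h1 := dist_pv_le hfv hy
      have h2 := hΓd y hyΓ
      have h3 := dist_triangle_left y z (pv v)
      linarith
    have hAR : 4 * (A1 + 1) * R ≤ A * R := by nlinarith
    have hA1R : A1 * R + R = (A1 + 1) * R := by ring
    have hA1R' : 2 * R ≤ A1 * R := by nlinarith
    have key := core h6c (W := {w | (A1 + 1) * R ≤ dist (pv w) z}) hsit.dom hφ h0 hf0 hzf hz0
      hsit.mark hqp h6 h4 hρη hρ0 hw0.le hw0q hw1n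
      (Γ := Γ) (by rw [hw1y]; exact Or.inr (right_mem_segment _ _ _)) hΓc hΓs
      (fun w h1 h2 => Or.inl (hΓ1m w h1 h2)) (by
        intro v hv
        rw [mem_ofPred_eq]
        have := hS v hv
        linarith) (by
        intro T _ hTW hTc
        refine hG1' (reg U) φ z b R hφ h0 hR0 hb hR.symm _ inter_subset_left
          (preconn_preimage hφ.cont hφ.inj (preconn_Hat hTc) (by rw [hcl]; exact Hat_subset)) ?_
        rintro a ⟨-, ha⟩
        obtain ⟨v, hv, f, hf, hfv, hy⟩ := mem_Hat.1 ha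
        have h1 := hTW hv
        rw [mem_ofPred_eq] at h1
        have h2 := dist_pv_le hfv hy
        have h3 := dist_triangle (pv v) (φ a) z
        linarith) hE hE' hq hq' hφq hφq' hqq hc hc' j
    refine key.trans ((armS_far hS).trans (harm _ _ _ _ (by linarith) (by linarith) ?_))
    have h1 : θ * (A * R) = 4 * (A1 + 1) * R := by rw [← mul_assoc, hAθ]
    have h2 : θ * (A * R - 4 - 2) = 4 * (A1 + 1) * R - 6 * θ := by
      rw [← h1]; ring
    rw [h2]
    linarith
  · push Not at hfar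
    obtain ⟨w2, hw2q, hw2, hw2z⟩ := hfar
    have hlA : l ≤ A := by linarith
    have hshort : ∀ w, dist w q = ρ → ‖w‖ ≤ 1 → dist (φ w) (φ w0) ≤ 2 * (l * R) := by
      have h1 : ∀ w, dist w q = ρ → ‖w‖ ≤ 1 → dist (φ w) (φ w2) ≤ l * R := by
        intro w hwq hw
        refine short hφ.cont hφ.diff hρ0 hρ1 (by positivity) hlen hw2 hw hw2q hwq ?_
        nlinarith
      intro w hwq hw
      have h2 := h1 w hwq hw
      have h3 := h1 w0 hw0q hw0.le
      have h4 := dist_triangle_right (φ w) (φ w0) (φ w2)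
      linarith
    have hlR : 56 * (l * R) = θ * (L * R) := by rw [hl]; ring
    have hLR : 24 * (L * R) = θ * (δ1 * R) := by rw [hL]; ring
    have hR1' : 48 ≤ θ * (δ1 * R) := by rw [← mul_assoc]; exact hR1
    have hR2' : 240 ≤ θ * (L * R) := by rw [← mul_assoc]; exact hR2
    have hLR0 : 0 < L * R := by positivity
    have hlR0 : 0 < l * R := by positivity
    have hδR0 : 0 < δ1 * R := by positivity
    have hθLR : θ * (L * R) ≤ L * R := by nlinarith
    have hθδR : θ * (δ1 * R) ≤ δ1 * R := by nlinarith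
    obtain ⟨b', hb', hball'⟩ := exists_nearest U (φ w0)
    by_cases hnear : dist (φ w0) b' < L * R
    · -- near the frontier
      obtain ⟨t, ht, hout, hseg⟩ := exists_exit (x := φ w0) (u := b' - φ w0) (T := 1)
        (subset_closure hx0) zero_le_one (by
          have : φ w0 + ((1:ℝ) : ℂ) * (b' - φ w0) = b' := by push_cast; ring
          rw [this]; exact hb')
      obtain ⟨w1, hw1, hw1y⟩ : ∃ w1, ‖w1‖ ≤ 1 ∧ φ w1 = φ w0 + t * (b' - φ w0) := by
        have h1 := hseg t ⟨ht.1, le_rfl⟩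
        rw [← hcl] at h1
        obtain ⟨w, hw, hw'⟩ := h1
        exact ⟨w, by rwa [mem_closedBall, dist_zero_right] at hw, hw'⟩
      have hw1n : ‖w1‖ = 1 := chart_unit hφ hw1 (by rw [hw1y]; exact hout)
      set Γ : Set ℂ := Γ1 ∪ segment ℝ (φ w0) (φ w0 + t * (b' - φ w0)) with hΓ
      have hΓc : IsPreconnected Γ := IsPreconnected.union (φ w0) (hΓ1m w0 hw0q hw0.le)
        (left_mem_segment _ _ _) hΓ1c (convex_segment _ _).isPreconnected
      have hΓs : Γ ⊆ closure (reg U) := by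
        rintro y (hy | hy)
        · exact hΓ1s hy
        · obtain ⟨r, hr, rfl⟩ := seg_eq ht.1 hy
          exact hseg r hr
      have hΓd : ∀ y ∈ Γ, dist y (φ w0) ≤ L * R := by
        rintro y (⟨w, ⟨h1, h2⟩, rfl⟩ | hy)
        · rw [mem_closedBall, dist_zero_right] at h2
          have := hshort w h1 h2
          linarith
        · obtain ⟨r, hr, rfl⟩ := seg_eq ht.1 hy
          rw [dist_eq_norm, add_sub_cancel_left, norm_mul, Complex.norm_real, Real.norm_eq_abs,
            abs_of_nonneg hr.1, ← dist_eq_norm, dist_comm]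
          have h1 : r ≤ 1 := hr.2.trans ht.2
          have h3 : 0 ≤ dist (φ w0) b' := dist_nonneg
          have h2 := hr.1
          nlinarith
      have hS : ∀ v ∈ Cov U Γ, dist (pv v) (φ w0) ≤ L * R + 4 := by
        rintro v ⟨f, hf, hfv, y, hy, hyΓ⟩
        have h1 := dist_pv_le hfv hy
        have h2 := hΓd y hyΓ
        have h3 := dist_triangle (pv v) y (φ w0)
        linarith
      have key := core h6c (W := {w | dist (pv w) (φ w0) ≤ δ1 * R / 4}) hsit.dom hφ h0 hf0 hzf hz0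
        hsit.mark hqp h6 h4 hρη hρ0 hw0.le hw0q hw1n
        (Γ := Γ) (by rw [hw1y]; exact Or.inr (right_mem_segment _ _ _)) hΓc hΓs
        (fun w h1 h2 => Or.inl (hΓ1m w h1 h2)) (by
          intro v hv
          rw [mem_ofPred_eq]
          have := hS v hv
          linarith) (by
          intro T _ hTW hTc
          refine hG1 (reg U) φ z R hφ h0 hR0 hball _ inter_subset_left
            (preconn_preimage hφ.cont hφ.inj (preconn_Hat hTc) (by rw [hcl]; exact Hat_subset)) ?_
          have h1 : ∀ a ∈ closedBall (0:ℂ) 1 ∩ φ ⁻¹' Hat U T, dist (φ a) (φ w0) ≤ δ1 * R / 4 + 4 := by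
            rintro a ⟨-, ha⟩
            obtain ⟨v, hv, f, hf, hfv, hy⟩ := mem_Hat.1 ha
            have h1 := hTW hv
            rw [mem_ofPred_eq] at h1
            have h2 := dist_pv_le hfv hy
            have h3 := dist_triangle_left (φ a) (φ w0) (pv v)
            linarith
          intro a ha b hb
          have h2 := h1 a ha
          have h3 := h1 b hb
          have h4 := dist_triangle_right (φ a) (φ b) (φ w0)
          linarith) hE hE' hq hq' hφq hφq' hqq hc hc' j
      refine key.trans ((armS_near hS).trans (harm _ _ _ _ (by linarith) (by linarith) ?_))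
      have h2 : θ * (δ1 * R / 4 - 2) = θ * (δ1 * R) / 4 - 2 * θ := by ring
      rw [h2]
      linarith
    · -- the bulk
      rw [not_lt] at hnear
      have hin : ball (φ w0) (L * R) ⊆ reg U := (ball_subset_ball hnear).trans hball'
      have hqρ : ‖q‖ + ρ < 1 := by
        by_contra hcon
        rw [not_lt] at hcon
        obtain ⟨w3, hw3q, hw3⟩ := exists_unit hρ0 hρ1 hq hcon
        apply chart_not_mem hφ hw3
        apply hin
        rw [mem_ball]
        have := hshort w3 hw3q hw3.le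
        linarith
      have hcb : closedBall q ρ ⊆ ball (0:ℂ) 1 := by
        intro w hw
        rw [mem_closedBall, dist_eq_norm] at hw
        rw [mem_ball, dist_zero_right]
        have h1 := norm_add_le (w - q) q
        rw [sub_add_cancel] at h1
        linarith
      have hmax : ∀ w ∈ closedBall q ρ, dist (φ w) (φ w0) ≤ 2 * (l * R) := by
        intro w hw
        have hd : DiffContOnCl ℂ (fun a => φ a - φ w0) (ball q ρ) := by
          apply DifferentiableOn.diffContOnCl
          rw [closure_ball q hρ0.ne']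
          exact (hφ.diff.mono hcb).sub_const _
        have h1 := Complex.norm_le_of_forall_mem_frontier_norm_le isBounded_ball hd
          (C := 2 * (l * R)) (z := w) (fun a ha => by
            rw [frontier_ball q hρ0.ne', mem_sphere] at ha
            rw [← dist_eq_norm]
            refine hshort a ha ?_
            have := hcb (by rw [mem_closedBall]; exact ha.le)
            rw [mem_ball, dist_zero_right] at this
            exact this.le) (by rw [closure_ball q hρ0.ne']; exact hw)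
        rwa [dist_eq_norm]
      have hpq := hmax q (mem_closedBall_self hρ0.le)
      have hpq' := hmax q' hqq.le
      have hd1 : ∀ (v : Vx) (k : Fin 3), dist (mid v k) (φ w0) ≤ 2 * (l * R) →
          ‖pv v - φ w0‖ ≤ 2 * (l * R) + 4 ∧ ‖pv (nb v k) - φ w0‖ ≤ 2 * (l * R) + 4 := by
        intro v k h
        have h1 := dist_pv_mid v k
        have h2 := dist_pv_mid (nb v k) k
        rw [mid_nb] at h2
        have h3 := dist_triangle (pv v) (mid v k) (φ w0)
        have h4 := dist_triangle (pv (nb v k)) (mid v k) (φ w0)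
        rw [← dist_eq_norm, ← dist_eq_norm]
        constructor <;> linarith
      have hv := hd1 v k (by rw [← hφq]; exact hpq)
      have hv' := hd1 v' k' (by rw [← hφq']; exact hpq')
      refine (h6b U M hsit.dom (φ w0) (2 * (l * R) + 4) (L * R - 4) (by linarith) (by linarith) ?_
        v v' k k' hv.1 hv.2 hv'.1 hv'.2 c c' hc hc' j).trans (harm _ _ _ _ (by linarith)
          (by linarith) ?_)
      · intro f hf
        have h1 : ctr f ∈ reg U := by
          apply hin
          rw [mem_ball, dist_eq_norm]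
          linarith
        obtain ⟨g, hg, hfg⟩ := mem_closure_reg.1 (subset_closure h1)
        rw [eq_of_ctr_mem hfg]
        exact hg
      · have h2 : θ * ((L * R - 4) / 4) = θ * (L * R) / 4 - θ := by ring
        rw [h2]
        linarith

end Pool.Agent.H69.UC
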